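import Mathlib

/-!
A quadratic counting lemma for linear spaces.

`X` plays the role of the points, `Y` of the blocks of a linear space, `R x y` is incidence.
-/

open Finset

set_option linter.unusedSectionVars false

namespace Pool.Agent.H27

variable {X Y : Type*} [Fintype Y] [DecidableEq X] [DecidableEq Y]

open Classical in
/-- Number of elements of `A` incident with `y`. -/
noncomputable def cnt (R : X → Y → Prop) (A : Finset X) (y : Y) : ℕ :=
  (A.filter (fun x => R x y)).card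

/-- square of a sum minus the diagonal -/
theorem sq_sum_sub_diag (I : Finset X) (a : X → ℝ) :
    (∑ k ∈ I, a k) ^ 2 - ∑ k ∈ I, a k ^ 2 =
      ∑ k ∈ I, ∑ k' ∈ I, if k = k' then 0 else a k * a k' := by
  have h : (∑ k ∈ I, a k) ^ 2 = ∑ k ∈ I, ∑ k' ∈ I, a k * a k' := by
    rw [sq, Finset.sum_mul_sum]
  rw [h, ← Finset.sum_sub_distrib]
  refine Finset.sum_congr rfl fun k hk => ?_
  rw [sub_eq_iff_eq_add]
  have : ∑ k' ∈ I, a k * a k' =
      ∑ k' ∈ I, ((if k = k' then 0 else a k * a k') + (if k = k' then a k ^ 2 else 0)) := by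
    refine Finset.sum_congr rfl fun k' _ => ?_
    split_ifs with h
    · subst h; ring
    · ring
  rw [this, Finset.sum_add_distrib]
  congr 1
  rw [Finset.sum_ite_eq]
  simp [hk]

open Classical in
theorem main_lemma (R : X → Y → Prop) (A I : Finset X) (hAI : Disjoint A I)
    (huniq : ∀ x ∈ A ∪ I, ∀ x' ∈ A ∪ I, x ≠ x' → ∃! y, R x y ∧ R x' y)
    (w : X → ℝ) (hw : ∀ k ∈ I, 0 ≤ w k)
    (g : X → Y → ℝ) (μ : X → ℝ)
    (hg0 : ∀ x ∈ A, ∀ y, R x y → 0 ≤ g x y)
    (hg : ∀ x ∈ A, ∀ y, R x y → ∀ k ∈ I, R k y → w k ≤ g x y)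
    (hμ : ∀ x ∈ A, ∑ y with R x y, g x y ≤ μ x)
    (hU : 0 < ∑ k ∈ I, w k) :
    ∑ y with cnt R I y < 2, (cnt R A y : ℝ) * ((cnt R A y : ℝ) - 1) ≤
      2 * (A.card / ∑ k ∈ I, w k) * ∑ x ∈ A, μ x
        + ∑ x ∈ A, ((univ.filter (fun y => R x y ∧ 2 ≤ cnt R I y)).card : ℝ) := by
  set U : ℝ := ∑ k ∈ I, w k with hUdef
  set r : X → Y → ℝ := fun x y => if R x y then 1 else 0 with hr
  have hr0 : ∀ x y, 0 ≤ r x y := by intro x y; simp only [hr]; split_ifs <;> norm_num
  have hrsq : ∀ x y, r x y ^ 2 = r x y := by intro x y; simp only [hr]; split_ifs <;> norm_num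
  have hcnt : ∀ (B : Finset X) y, (cnt R B y : ℝ) = ∑ x ∈ B, r x y := by
    intro B y
    simp only [cnt, hr, Finset.sum_ite, Finset.sum_const_zero, add_zero, Finset.sum_const,
      nsmul_eq_mul, mul_one]
  -- each pair is in exactly one block
  have hpair : ∀ x ∈ A ∪ I, ∀ x' ∈ A ∪ I, x ≠ x' → ∑ y, r x y * r x' y = 1 := by
    intro x hx x' hx' hne
    obtain ⟨y, hy, hyu⟩ := huniq x hx x' hx' hne
    rw [Finset.sum_eq_single y]
    · simp [hr, hy.1, hy.2]
    · intro z _ hz
      by_cases h1 : R x z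
      · by_cases h2 : R x' z
        · exact absurd (hyu z ⟨h1, h2⟩) hz
        · simp [hr, h2]
      · simp [hr, h1]
    · simp
  -- notation
  set Uy : Y → ℝ := fun y => ∑ k ∈ I, w k * r k y with hUy
  set Vy : Y → ℝ := fun y => ∑ k ∈ I, (w k * r k y) ^ 2 with hVy
  set yy : Y → ℝ := fun y => Uy y - Vy y / Uy y with hyy
  have hUy0 : ∀ y, 0 ≤ Uy y := fun y =>
    Finset.sum_nonneg fun k hk => mul_nonneg (hw k hk) (hr0 k y)
  have hVy0 : ∀ y, 0 ≤ Vy y := fun y => Finset.sum_nonneg fun k hk => sq_nonneg _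
  -- V ≤ U^2 on each block
  have hVU : ∀ y, Vy y ≤ Uy y ^ 2 := by
    intro y
    have h1 := sq_sum_sub_diag I (fun k => w k * r k y)
    have h2 : 0 ≤ ∑ k ∈ I, ∑ k' ∈ I,
        if k = k' then 0 else (w k * r k y) * (w k' * r k' y) := by
      refine Finset.sum_nonneg fun k hk => Finset.sum_nonneg fun k' hk' => ?_
      split_ifs
      · exact le_rfl
      · exact mul_nonneg (mul_nonneg (hw k hk) (hr0 k y)) (mul_nonneg (hw k' hk') (hr0 k' y))
    simp only [hUy, hVy]
    linarith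
  -- total
  have htot : ∑ y, (Uy y ^ 2 - Vy y) ≤ U ^ 2 := by
    have h1 : ∑ y, (Uy y ^ 2 - Vy y) =
        ∑ k ∈ I, ∑ k' ∈ I, if k = k' then 0 else w k * w k' := by
      have : ∀ y, Uy y ^ 2 - Vy y = ∑ k ∈ I, ∑ k' ∈ I,
          if k = k' then 0 else (w k * r k y) * (w k' * r k' y) := fun y =>
        sq_sum_sub_diag I (fun k => w k * r k y)
      rw [Finset.sum_congr rfl fun y _ => this y, Finset.sum_comm]
      refine Finset.sum_congr rfl fun k hk => ?_
      rw [Finset.sum_comm]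
      refine Finset.sum_congr rfl fun k' hk' => ?_
      split_ifs with h
      · simp
      · have hp := hpair k (Finset.mem_union_right _ hk) k' (Finset.mem_union_right _ hk') h
        calc ∑ y, (w k * r k y) * (w k' * r k' y) = ∑ y, (w k * w k') * (r k y * r k' y) :=
              Finset.sum_congr rfl fun y _ => by ring
          _ = w k * w k' := by rw [← Finset.mul_sum, hp, mul_one]
    rw [h1, ← sq_sum_sub_diag I w]
    have : 0 ≤ ∑ k ∈ I, w k ^ 2 := Finset.sum_nonneg fun k _ => sq_nonneg _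
    linarith
  -- yy^2 ≤ U^2 - V
  have hyysq : ∀ y, yy y ^ 2 ≤ Uy y ^ 2 - Vy y := by
    intro y
    rcases (hUy0 y).eq_or_lt with h0 | hpos
    · have hV : Vy y = 0 := by
        have := hVU y; rw [← h0] at this
        have h3 := hVy0 y
        nlinarith
      simp only [hyy]
      rw [← h0, hV]; norm_num
    · have h1 : yy y = (Uy y ^ 2 - Vy y) / Uy y := by
        simp only [hyy]; field_simp
      have h2 : 0 ≤ Uy y ^ 2 - Vy y := by have := hVU y; linarith
      rw [h1, div_pow, div_le_iff₀ (by positivity)]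
      have h3 : Uy y ^ 2 - Vy y ≤ Uy y ^ 2 := by have := hVy0 y; linarith
      nlinarith
  -- yy = 0 on blocks with < 2 elements of I
  have hyyzero : ∀ y, cnt R I y < 2 → yy y = 0 := by
    intro y hy
    unfold cnt at hy
    have hsum : ∀ f : X → ℝ, ∑ k ∈ I, f k * r k y = ∑ k ∈ I.filter (fun k => R k y), f k := by
      intro f
      rw [Finset.sum_filter]
      refine Finset.sum_congr rfl fun k _ => ?_
      simp only [hr]; split_ifs <;> simp
    have hU' : Uy y = ∑ k ∈ I.filter (fun k => R k y), w k := hsum w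
    have hV' : Vy y = ∑ k ∈ I.filter (fun k => R k y), w k ^ 2 := by
      simp only [hVy]
      rw [← hsum]
      refine Finset.sum_congr rfl fun k _ => ?_
      rw [mul_pow, hrsq]
    interval_cases h : (I.filter (fun k => R k y)).card
    · rw [Finset.card_eq_zero] at h
      simp only [hyy]
      rw [hU', hV', h]; simp
    · obtain ⟨k, hk⟩ := Finset.card_eq_one.mp h
      simp only [hyy]
      rw [hU', hV', hk]
      simp only [Finset.sum_singleton]
      by_cases hz : w k = 0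
      · simp [hz]
      · field_simp; ring
  -- coverage
  have hcov : ∀ x ∈ A, ∑ y, r x y * Uy y = U := by
    intro x hx
    simp only [hUy, Finset.mul_sum]
    rw [Finset.sum_comm]
    refine Finset.sum_congr rfl fun k hk => ?_
    have hne : x ≠ k := by
      rintro rfl
      exact (Finset.disjoint_left.mp hAI hx hk)
    have hp := hpair x (Finset.mem_union_left _ hx) k (Finset.mem_union_right _ hk) hne
    calc ∑ y, r x y * (w k * r k y) = ∑ y, w k * (r x y * r k y) :=
          Finset.sum_congr rfl fun y _ => by ring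
      _ = w k := by rw [← Finset.mul_sum, hp, mul_one]
  have hVg : ∀ x ∈ A, ∀ y, R x y → Vy y / Uy y ≤ g x y := by
    intro x hx y hxy
    rcases (hUy0 y).eq_or_lt with h0 | hpos
    · rw [← h0, div_zero]; exact hg0 x hx y hxy
    · rw [div_le_iff₀ hpos]
      simp only [hVy, hUy, Finset.mul_sum]
      refine Finset.sum_le_sum fun k hk => ?_
      by_cases hk' : R k y
      · have := hg x hx y hxy k hk hk'
        have h1 : r k y = 1 := by simp [hr, hk']
        rw [h1, mul_one, sq]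
        exact mul_le_mul_of_nonneg_right this (hw k hk)
      · have h1 : r k y = 0 := by simp [hr, hk']
        rw [h1]; simp
  have hcov2 : ∀ x ∈ A, U - μ x ≤ ∑ y, r x y * yy y := by
    intro x hx
    have h1 : ∑ y, r x y * yy y = U - ∑ y, r x y * (Vy y / Uy y) := by
      rw [← hcov x hx, ← Finset.sum_sub_distrib]
      refine Finset.sum_congr rfl fun y _ => ?_
      simp only [hyy]; ring
    have h2 : ∑ y, r x y * (Vy y / Uy y) ≤ μ x := by
      refine le_trans ?_ (hμ x hx)
      rw [Finset.sum_filter]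
      refine Finset.sum_le_sum fun y _ => ?_
      by_cases hxy : R x y
      · have h3 : r x y = 1 := by simp [hr, hxy]
        rw [h3, one_mul, if_pos hxy]
        exact hVg x hx y hxy
      · have h3 : r x y = 0 := by simp [hr, hxy]
        rw [h3, if_neg hxy]; simp
    linarith
  set m : ℝ := (A.card : ℝ) with hm
  have hm0 : 0 ≤ m := by positivity
  -- sum of alpha * yy
  have hsumay : m * U - ∑ x ∈ A, μ x ≤ ∑ y, (cnt R A y : ℝ) * yy y := by
    have h1 : ∑ y, (cnt R A y : ℝ) * yy y = ∑ x ∈ A, ∑ y, r x y * yy y := by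
      rw [Finset.sum_comm]
      refine Finset.sum_congr rfl fun y _ => ?_
      rw [hcnt, Finset.sum_mul]
    rw [h1]
    have h2 : ∑ x ∈ A, (U - μ x) ≤ ∑ x ∈ A, ∑ y, r x y * yy y :=
      Finset.sum_le_sum hcov2
    rw [Finset.sum_sub_distrib, Finset.sum_const, nsmul_eq_mul] at h2
    exact h2
  -- restrict to B2
  set B2 : Finset Y := univ.filter (fun y => 2 ≤ cnt R I y) with hB2
  have hsumB2 : ∑ y ∈ B2, (cnt R A y : ℝ) * yy y = ∑ y, (cnt R A y : ℝ) * yy y := by
    refine Finset.sum_subset (Finset.subset_univ _) fun y _ hy => ?_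
    have : cnt R I y < 2 := by
      by_contra hcon
      exact hy (by simp [hB2]; omega)
    rw [hyyzero y this, mul_zero]
  have hsqB2 : ∑ y ∈ B2, yy y ^ 2 ≤ U ^ 2 := by
    calc ∑ y ∈ B2, yy y ^ 2 ≤ ∑ y, yy y ^ 2 :=
          Finset.sum_le_sum_of_subset_of_nonneg (Finset.subset_univ _) fun y _ _ => sq_nonneg _
      _ ≤ ∑ y, (Uy y ^ 2 - Vy y) := Finset.sum_le_sum fun y _ => hyysq y
      _ ≤ U ^ 2 := htot
  have hSOS : m ^ 2 - 2 * (m / U) * ∑ x ∈ A, μ x ≤ ∑ y ∈ B2, (cnt R A y : ℝ) ^ 2 := by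
    have h0 : 0 ≤ ∑ y ∈ B2, ((cnt R A y : ℝ) - (m / U) * yy y) ^ 2 :=
      Finset.sum_nonneg fun y _ => sq_nonneg _
    have h1 : ∑ y ∈ B2, ((cnt R A y : ℝ) - (m / U) * yy y) ^ 2 =
        ∑ y ∈ B2, (cnt R A y : ℝ) ^ 2 - 2 * (m / U) * ∑ y ∈ B2, (cnt R A y : ℝ) * yy y
          + (m / U) ^ 2 * ∑ y ∈ B2, yy y ^ 2 := by
      rw [Finset.mul_sum, Finset.mul_sum, ← Finset.sum_sub_distrib, ← Finset.sum_add_distrib]
      refine Finset.sum_congr rfl fun y _ => ?_
      ring
    have hmU : 0 ≤ m / U := div_nonneg hm0 hU.le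
    have h2 : (m / U) ^ 2 * ∑ y ∈ B2, yy y ^ 2 ≤ m ^ 2 := by
      calc (m / U) ^ 2 * ∑ y ∈ B2, yy y ^ 2 ≤ (m / U) ^ 2 * U ^ 2 :=
            mul_le_mul_of_nonneg_left hsqB2 (sq_nonneg _)
        _ = m ^ 2 := by field_simp
    have h3 : 2 * (m / U) * (m * U - ∑ x ∈ A, μ x) ≤
        2 * (m / U) * ∑ y ∈ B2, (cnt R A y : ℝ) * yy y := by
      rw [hsumB2]
      exact mul_le_mul_of_nonneg_left hsumay (by positivity)
    have h4 : 2 * (m / U) * (m * U - ∑ x ∈ A, μ x) =
        2 * m ^ 2 - 2 * (m / U) * ∑ x ∈ A, μ x := by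
      field_simp
    rw [h1] at h0
    linarith
  -- number of ordered pairs
  have hall : ∑ y, (cnt R A y : ℝ) * ((cnt R A y : ℝ) - 1) = m ^ 2 - m := by
    have h1 : ∀ y, (cnt R A y : ℝ) * ((cnt R A y : ℝ) - 1) =
        ∑ x ∈ A, ∑ x' ∈ A, if x = x' then 0 else r x y * r x' y := by
      intro y
      rw [← sq_sum_sub_diag A (fun x => r x y), hcnt]
      simp only [hrsq]
      ring
    rw [Finset.sum_congr rfl fun y _ => h1 y, Finset.sum_comm]
    have h2 : ∀ x ∈ A, ∑ y, ∑ x' ∈ A, (if x = x' then 0 else r x y * r x' y) = m - 1 := by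
      intro x hx
      rw [Finset.sum_comm]
      have h3 : ∀ x' ∈ A, ∑ y, (if x = x' then 0 else r x y * r x' y) =
          if x = x' then (0:ℝ) else 1 := by
        intro x' hx'
        split_ifs with h
        · simp
        · exact hpair x (Finset.mem_union_left _ hx) x' (Finset.mem_union_left _ hx') h
      rw [Finset.sum_congr rfl h3]
      have h4 : ∀ x' ∈ A, (if x = x' then (0:ℝ) else 1) = 1 - if x = x' then (1:ℝ) else 0 := by
        intro x' _; split_ifs <;> norm_num
      rw [Finset.sum_congr rfl h4, Finset.sum_sub_distrib, Finset.sum_ite_eq, if_pos hx]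
      simp [hm]
    rw [Finset.sum_congr rfl h2, Finset.sum_const, nsmul_eq_mul]
    ring
  have hsplit : ∑ y, (cnt R A y : ℝ) * ((cnt R A y : ℝ) - 1) =
      ∑ y ∈ B2, (cnt R A y : ℝ) * ((cnt R A y : ℝ) - 1)
        + ∑ y with cnt R I y < 2, (cnt R A y : ℝ) * ((cnt R A y : ℝ) - 1) := by
    rw [hB2, ← Finset.sum_filter_add_sum_filter_not univ (fun y => 2 ≤ cnt R I y)]
    congr 1
    refine Finset.sum_congr ?_ fun _ _ => rfl
    ext y; simp
  have hB2lin : ∑ y ∈ B2, (cnt R A y : ℝ) =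
      ∑ x ∈ A, ((univ.filter (fun y => R x y ∧ 2 ≤ cnt R I y)).card : ℝ) := by
    simp only [hcnt A]
    rw [Finset.sum_comm]
    refine Finset.sum_congr rfl fun x _ => ?_
    rw [hB2, Finset.sum_filter]
    simp only [hr]
    rw [Finset.card_filter]
    push_cast
    refine Finset.sum_congr rfl fun y _ => ?_
    by_cases h1 : R x y <;> by_cases h2 : 2 ≤ cnt R I y <;> simp [h1, h2]
  have hB2exp : ∑ y ∈ B2, (cnt R A y : ℝ) * ((cnt R A y : ℝ) - 1) =
      ∑ y ∈ B2, (cnt R A y : ℝ) ^ 2 - ∑ y ∈ B2, (cnt R A y : ℝ) := by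
    rw [← Finset.sum_sub_distrib]
    refine Finset.sum_congr rfl fun y _ => ?_
    ring
  rw [← hB2lin]
  linarith

end Pool.Agent.H27
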