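import Mathlib
import Pool.Agent.H27.LinLemma

open Finset

set_option linter.unusedSectionVars false

namespace Pool.Agent.H27

section general

variable {X Y : Type*} [Fintype Y] [DecidableEq X]

open Classical in
theorem cnt_eq_sum (R : X → Y → Prop) (B : Finset X) (y : Y) :
    (cnt R B y : ℝ) = ∑ x ∈ B, if R x y then (1 : ℝ) else 0 := by
  simp only [cnt, Finset.sum_ite, Finset.sum_const_zero, add_zero, Finset.sum_const,
      nsmul_eq_mul, mul_one]

open Classical in
/-- in a linear space each ordered pair of distinct points is counted in exactly one block -/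
theorem pair_count (R : X → Y → Prop) (A : Finset X)
    (huniq : ∀ x ∈ A, ∀ x' ∈ A, x ≠ x' → ∃! y, R x y ∧ R x' y) :
    ∑ y, (cnt R A y : ℝ) * ((cnt R A y : ℝ) - 1) = (A.card : ℝ) * ((A.card : ℝ) - 1) := by
  set r : X → Y → ℝ := fun x y => if R x y then 1 else 0 with hr
  have hrsq : ∀ x y, r x y ^ 2 = r x y := by intro x y; simp only [hr]; split_ifs <;> norm_num
  have hpair : ∀ x ∈ A, ∀ x' ∈ A, x ≠ x' → ∑ y, r x y * r x' y = 1 := by
    intro x hx x' hx' hne
    obtain ⟨y, hy, hyu⟩ := huniq x hx x' hx' hne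
    rw [Finset.sum_eq_single y]
    · simp [hr, hy.1, hy.2]
    · intro z _ hz
      by_cases h1 : R x z
      · by_cases h2 : R x' z
        · exact absurd (hyu z ⟨h1, h2⟩) hz
        · simp [hr, h2]
      · simp [hr, h1]
    · simp
  have h1 : ∀ y, (cnt R A y : ℝ) * ((cnt R A y : ℝ) - 1) =
      ∑ x ∈ A, ∑ x' ∈ A, if x = x' then 0 else r x y * r x' y := by
    intro y
    rw [← sq_sum_sub_diag A (fun x => r x y), cnt_eq_sum]
    simp only [hrsq]
    ring
  rw [Finset.sum_congr rfl fun y _ => h1 y, Finset.sum_comm]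
  have h2 : ∀ x ∈ A, ∑ y, ∑ x' ∈ A, (if x = x' then 0 else r x y * r x' y) =
      (A.card : ℝ) - 1 := by
    intro x hx
    rw [Finset.sum_comm]
    have h3 : ∀ x' ∈ A, ∑ y, (if x = x' then 0 else r x y * r x' y) =
        if x = x' then (0:ℝ) else 1 := by
      intro x' hx'
      split_ifs with h
      · simp
      · exact hpair x hx x' hx' h
    rw [Finset.sum_congr rfl h3]
    have h4 : ∀ x' ∈ A, (if x = x' then (0:ℝ) else 1) = 1 - if x = x' then (1:ℝ) else 0 := by
      intro x' _; split_ifs <;> norm_num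
    rw [Finset.sum_congr rfl h4, Finset.sum_sub_distrib, Finset.sum_ite_eq, if_pos hx]
    simp
  rw [Finset.sum_congr rfl h2, Finset.sum_const, nsmul_eq_mul]

open Classical in
/-- counting the blocks through a fixed `x` -/
theorem one_count (R : X → Y → Prop) (x : X) (A : Finset X)
    (huniq : ∀ x' ∈ A, ∃! y, R x y ∧ R x' y) :
    ∑ y with R x y, (cnt R A y : ℝ) = (A.card : ℝ) := by
  simp only [cnt_eq_sum]
  rw [Finset.sum_comm]
  have h : ∀ x' ∈ A, ∑ y with R x y, (if R x' y then (1:ℝ) else 0) = 1 := by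
    intro x' hx'
    obtain ⟨y, hy, hyu⟩ := huniq x' hx'
    rw [Finset.sum_eq_single y]
    · simp [hy.2]
    · intro z hz hne
      have hz' : R x z := by simpa using hz
      rw [if_neg]
      intro h2
      exact hne (hyu z ⟨hz', h2⟩)
    · intro hy'
      exact absurd (by simpa using hy.1) hy'
  rw [Finset.sum_congr rfl h]
  simp

end general

/-- A planar space: points `P`, lines `L`, planes `Q`. -/
structure Planar (P L Q : Type*) where
  inc : P → L → Prop
  sub : L → Q → Prop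
  mem : P → Q → Prop
  line_exists : ∀ a b, a ≠ b → ∃ l, inc a l ∧ inc b l
  line_unique : ∀ a b l l', a ≠ b → inc a l → inc b l → inc a l' → inc b l' → l = l'
  line_two : ∀ l, ∃ a b, a ≠ b ∧ inc a l ∧ inc b l
  mem_of_sub : ∀ l σ p, sub l σ → inc p l → mem p σ
  sub_of_mem : ∀ a b l σ, a ≠ b → mem a σ → mem b σ → inc a l → inc b l → sub l σ
  plane_exists : ∀ l p, ¬ inc p l → ∃ σ, sub l σ ∧ mem p σ
  plane_unique : ∀ l p σ σ', ¬ inc p l → sub l σ → mem p σ → sub l σ' → mem p σ' → σ = σ'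
  plane_three : ∀ σ, ∃ a b c, mem a σ ∧ mem b σ ∧ mem c σ ∧ a ≠ b ∧
    ∀ l, inc a l → inc b l → ¬ inc c l

namespace Planar

variable {P L Q : Type*} [Fintype P] [Fintype L] [Fintype Q] (S : Planar P L Q)

open Classical in
/-- lines through `a` -/
noncomputable def Lt (a : P) : Finset L := univ.filter (fun l => S.inc a l)

/-- degree -/
noncomputable def d (a : P) : ℕ := (S.Lt a).card

open Classical in
/-- number of lines through `a` in the plane `σ` -/
noncomputable def D (a : P) (σ : Q) : ℕ := cnt S.sub (S.Lt a) σ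

open Classical in
/-- number of points on `l` -/
noncomputable def sz (l : L) : ℕ := cnt S.inc univ l

theorem mem_Lt {a : P} {l : L} : l ∈ S.Lt a ↔ S.inc a l := by
  simp [Lt]

theorem exists_unique_plane (a : P) (l l' : L) (h : S.inc a l) (h' : S.inc a l') (hne : l ≠ l') :
    ∃! σ, S.sub l σ ∧ S.sub l' σ := by
  obtain ⟨x, y, hxy, hx, hy⟩ := S.line_two l'
  obtain ⟨p, hpa, hp⟩ : ∃ p, p ≠ a ∧ S.inc p l' := by
    by_cases hxa : x = a
    · exact ⟨y, by rw [← hxa]; exact hxy.symm, hy⟩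
    · exact ⟨x, hxa, hx⟩
  have hpl : ¬ S.inc p l := fun hpl => hne (S.line_unique p a l l' hpa hpl h hp h')
  obtain ⟨σ, hσ1, hσ2⟩ := S.plane_exists l p hpl
  refine ⟨σ, ⟨hσ1, S.sub_of_mem p a l' σ hpa hσ2 (S.mem_of_sub l σ a hσ1 h) hp h'⟩, ?_⟩
  rintro τ ⟨hτ1, hτ2⟩
  exact S.plane_unique l p τ σ hpl hτ1 (S.mem_of_sub l' τ p hτ2 hp) hσ1 hσ2

theorem exists_unique_line (a b : P) (h : a ≠ b) : ∃! l, S.inc a l ∧ S.inc b l := by
  obtain ⟨l, h1, h2⟩ := S.line_exists a b h
  exact ⟨l, ⟨h1, h2⟩, fun l' ⟨h3, h4⟩ => S.line_unique a b l' l h h3 h4 h1 h2⟩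

/-- through a point of a plane there are two lines of the plane -/
theorem exists_two_lines (σ : Q) (a : P) (ha : S.mem a σ) :
    ∃ l l', l ≠ l' ∧ S.inc a l ∧ S.inc a l' ∧ S.sub l σ ∧ S.sub l' σ := by
  obtain ⟨x, y, z, hx, hy, hz, hxy, hcol⟩ := S.plane_three σ
  obtain ⟨b, hba, hb⟩ : ∃ b, b ≠ a ∧ S.mem b σ := by
    by_cases hxa : x = a
    · exact ⟨y, by rw [← hxa]; exact hxy.symm, hy⟩
    · exact ⟨x, hxa, hx⟩
  obtain ⟨l, hal, hbl⟩ := S.line_exists a b (Ne.symm hba)
  have hlσ : S.sub l σ := S.sub_of_mem a b l σ (Ne.symm hba) ha hb hal hbl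
  obtain ⟨c, hc, hcl⟩ : ∃ c, S.mem c σ ∧ ¬ S.inc c l := by
    by_contra hcon
    push Not at hcon
    exact hcol l (hcon x hx) (hcon y hy) (hcon z hz)
  have hca : c ≠ a := by rintro rfl; exact hcl hal
  obtain ⟨l', hal', hcl'⟩ := S.line_exists a c (Ne.symm hca)
  refine ⟨l, l', ?_, hal, hal', hlσ, S.sub_of_mem a c l' σ (Ne.symm hca) ha hc hal' hcl'⟩
  rintro rfl
  exact hcl hcl'

theorem exists_off_line (σ : Q) (l : L) : ∃ c, S.mem c σ ∧ ¬ S.inc c l := by
  obtain ⟨x, y, z, hx, hy, hz, hxy, hcol⟩ := S.plane_three σ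
  by_contra hcon
  push Not at hcon
  exact hcol l (hcon x hx) (hcon y hy) (hcon z hz)

open Classical in
/-- a point off a line of a plane has degree at least the size of the line in that plane -/
theorem sz_le_D (b : P) (k : L) (σ : Q) (hbk : ¬ S.inc b k) (hk : S.sub k σ) (hb : S.mem b σ) :
    S.sz k ≤ S.D b σ := by
  unfold sz D cnt
  have hne : ∀ p, S.inc p k → b ≠ p := by rintro p hp rfl; exact hbk hp
  refine Finset.card_le_card_of_injOn
    (fun p => if h : b ≠ p then (S.line_exists b p h).choose else k) ?_ ?_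
  · intro p hp
    have hp' : S.inc p k := by simpa using hp
    have hbp := hne p hp'
    simp only [ne_eq, hbp, not_false_eq_true, ↓reduceDIte, coe_filter, Set.mem_ofPred_eq]
    have hs := (S.line_exists b p hbp).choose_spec
    exact ⟨S.mem_Lt.mpr hs.1,
      S.sub_of_mem b p _ σ hbp hb (S.mem_of_sub k σ p hk hp') hs.1 hs.2⟩
  · intro p hp q hq hpq
    have hp' : S.inc p k := by simpa using hp
    have hq' : S.inc q k := by simpa using hq
    have hbp := hne p hp'
    have hbq := hne q hq'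
    simp only [ne_eq, hbp, not_false_eq_true, ↓reduceDIte, hbq] at hpq
    have hs := (S.line_exists b p hbp).choose_spec
    have hs' := (S.line_exists b q hbq).choose_spec
    by_contra hpq'
    rw [← hpq] at hs'
    have := S.line_unique p q _ k hpq' hs.2 hs'.2 hp' hq'
    rw [this] at hs
    exact hbk hs.1

open Classical in
theorem pair_count_planes (a : P) :
    ∑ σ, (S.D a σ : ℝ) * ((S.D a σ : ℝ) - 1) = (S.d a : ℝ) * ((S.d a : ℝ) - 1) := by
  unfold D d
  refine pair_count S.sub (S.Lt a) ?_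
  intro l hl l' hl' hne
  exact S.exists_unique_plane a l l' (S.mem_Lt.mp hl) (S.mem_Lt.mp hl') hne

open Classical in
theorem line_count_planes (a : P) (l : L) (hal : S.inc a l) :
    ∑ σ with S.sub l σ, ((S.D a σ : ℝ) - 1) = (S.d a : ℝ) - 1 := by
  have h := one_count S.sub l ((S.Lt a).erase l) (by
    intro l' hl'
    rw [Finset.mem_erase] at hl'
    exact S.exists_unique_plane a l l' hal (S.mem_Lt.mp hl'.2) (Ne.symm hl'.1))
  have hmem : l ∈ S.Lt a := S.mem_Lt.mpr hal
  have hcard : (((S.Lt a).erase l).card : ℝ) = (S.d a : ℝ) - 1 := by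
    unfold d
    have := Finset.card_erase_add_one hmem
    rw [← this]; push_cast; ring
  rw [← hcard, ← h]
  refine Finset.sum_congr rfl fun σ hσ => ?_
  have hσ' : S.sub l σ := by simpa using hσ
  unfold D cnt
  have hmem2 : l ∈ (S.Lt a).filter (fun x => S.sub x σ) := by simp [hmem, hσ']
  have := Finset.card_erase_add_one hmem2
  rw [← this, Finset.filter_erase]; push_cast; ring

open Classical in
theorem sum_sz (a : P) : ∑ l ∈ S.Lt a, ((S.sz l : ℝ) - 1) = (Fintype.card P : ℝ) - 1 := by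
  have h := one_count S.inc a (univ.erase a) (by
    intro p hp
    rw [Finset.mem_erase] at hp
    exact S.exists_unique_line a p (Ne.symm hp.1))
  have hcard : ((univ.erase a).card : ℝ) = (Fintype.card P : ℝ) - 1 := by
    have := Finset.card_erase_add_one (Finset.mem_univ a)
    rw [← Finset.card_univ, ← this]; push_cast; ring
  rw [← hcard, ← h]
  unfold Lt
  refine Finset.sum_congr rfl fun l hl => ?_
  have hl' : S.inc a l := by simpa using hl
  unfold sz cnt
  have hmem2 : a ∈ univ.filter (fun x => S.inc x l) := by simp [hl']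
  have := Finset.card_erase_add_one hmem2
  rw [← this, Finset.filter_erase]; push_cast; ring

open Classical in
/-- few planes through a line in which `b` has large degree -/
theorem planes_through_line (b : P) (l : L) (hbl : S.inc b l) (k : ℕ) :
    ((univ.filter (fun σ => S.sub l σ ∧ k + 1 ≤ S.D b σ)).card : ℝ) * k ≤ (S.d b : ℝ) - 1 := by
  rw [← S.line_count_planes b l hbl]
  have h1 : ∀ σ ∈ univ.filter (fun σ => S.sub l σ), 0 ≤ (S.D b σ : ℝ) - 1 := by
    intro σ hσ
    have hσ' : S.sub l σ := by simpa using hσ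
    have : 1 ≤ S.D b σ := by
      unfold D cnt
      exact Finset.card_pos.mpr ⟨l, by simp [S.mem_Lt.mpr hbl, hσ']⟩
    have : (1:ℝ) ≤ (S.D b σ : ℝ) := by exact_mod_cast this
    linarith
  calc ((univ.filter (fun σ => S.sub l σ ∧ k + 1 ≤ S.D b σ)).card : ℝ) * k
      = ∑ σ ∈ univ.filter (fun σ => S.sub l σ ∧ k + 1 ≤ S.D b σ), (k : ℝ) := by
        rw [Finset.sum_const, nsmul_eq_mul]
    _ ≤ ∑ σ ∈ univ.filter (fun σ => S.sub l σ ∧ k + 1 ≤ S.D b σ), ((S.D b σ : ℝ) - 1) := by
        refine Finset.sum_le_sum fun σ hσ => ?_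
        have h2 : k + 1 ≤ S.D b σ := by
          rw [Finset.mem_filter] at hσ; exact hσ.2.2
        have : ((k : ℝ) + 1) ≤ (S.D b σ : ℝ) := by exact_mod_cast h2
        linarith
    _ ≤ ∑ σ ∈ univ.filter (fun σ => S.sub l σ), ((S.D b σ : ℝ) - 1) := by
        refine Finset.sum_le_sum_of_subset_of_nonneg ?_ fun σ hσ _ => h1 σ hσ
        intro σ hσ
        rw [Finset.mem_filter] at hσ ⊢
        exact ⟨hσ.1, hσ.2.1⟩

open Classical in
/-- few planes in which `b` has large degree -/
theorem planes_through_point (b : P) (k : ℕ) :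
    ((univ.filter (fun σ => k + 1 ≤ S.D b σ)).card : ℝ) * ((k + 1) * k) ≤
      (S.d b : ℝ) * ((S.d b : ℝ) - 1) := by
  rw [← S.pair_count_planes b]
  have hnn : ∀ σ, 0 ≤ (S.D b σ : ℝ) * ((S.D b σ : ℝ) - 1) := by
    intro σ
    rcases Nat.eq_zero_or_pos (S.D b σ) with h | h
    · rw [h]; norm_num
    · have : (1:ℝ) ≤ (S.D b σ : ℝ) := by exact_mod_cast h
      nlinarith
  calc ((univ.filter (fun σ => k + 1 ≤ S.D b σ)).card : ℝ) * ((k + 1) * k)
      = ∑ σ ∈ univ.filter (fun σ => k + 1 ≤ S.D b σ), (((k:ℝ) + 1) * k) := by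
        rw [Finset.sum_const, nsmul_eq_mul]
    _ ≤ ∑ σ ∈ univ.filter (fun σ => k + 1 ≤ S.D b σ), (S.D b σ : ℝ) * ((S.D b σ : ℝ) - 1) := by
        refine Finset.sum_le_sum fun σ hσ => ?_
        have h2 : k + 1 ≤ S.D b σ := by
          rw [Finset.mem_filter] at hσ; exact hσ.2
        have h3 : ((k : ℝ) + 1) ≤ (S.D b σ : ℝ) := by exact_mod_cast h2
        have h4 : (0:ℝ) ≤ k := by positivity
        nlinarith
    _ ≤ ∑ σ, (S.D b σ : ℝ) * ((S.D b σ : ℝ) - 1) :=
        Finset.sum_le_sum_of_subset_of_nonneg (Finset.subset_univ _) fun σ _ _ => hnn σ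

open Classical in
/-- the basic degree inequality -/
theorem sum_deg_le (T : Finset P) :
    2 * ∑ p ∈ T, (S.d p : ℝ) ≤ 2 * (Fintype.card L : ℝ) + (T.card : ℝ) * ((T.card : ℝ) - 1) := by
  have h1 := pair_count S.inc T (fun a _ b _ hne => S.exists_unique_line a b hne)
  have h2 : ∑ p ∈ T, (S.d p : ℝ) = ∑ l, (cnt S.inc T l : ℝ) := by
    simp only [cnt_eq_sum]
    rw [Finset.sum_comm]
    refine Finset.sum_congr rfl fun p _ => ?_
    unfold d Lt
    rw [Finset.card_filter]; push_cast; rfl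
  rw [h2, ← h1, Finset.mul_sum]
  have h3 : (2 * (Fintype.card L : ℝ)) = ∑ _l : L, (2:ℝ) := by
    rw [Finset.sum_const, Finset.card_univ, nsmul_eq_mul]; ring
  rw [h3, ← Finset.sum_add_distrib]
  refine Finset.sum_le_sum fun l _ => ?_
  have : ∀ s : ℕ, 2 * (s : ℝ) ≤ 2 + (s : ℝ) * ((s : ℝ) - 1) := by
    intro s
    rcases s with _ | _ | s
    · norm_num
    · norm_num
    · push_cast; nlinarith [(by positivity : (0:ℝ) ≤ (s:ℝ))]
  exact this _

/-- d ≤ n - 1 -/
theorem d_le (a : P) : (S.d a : ℝ) ≤ (Fintype.card P : ℝ) - 1 := by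
  rw [← S.sum_sz a]
  unfold d
  have : ((S.Lt a).card : ℝ) = ∑ _l ∈ S.Lt a, (1:ℝ) := by simp
  rw [this]
  refine Finset.sum_le_sum fun l _ => ?_
  have h2 : 2 ≤ S.sz l := by
    classical
    obtain ⟨x, y, hxy, hx, hy⟩ := S.line_two l
    unfold sz cnt
    have : ({x, y} : Finset P) ⊆ univ.filter (fun p => S.inc p l) := by
      intro p hp
      simp only [Finset.mem_insert, Finset.mem_singleton] at hp
      rcases hp with rfl | rfl <;> simp [hx, hy]
    calc 2 = ({x, y} : Finset P).card := (Finset.card_pair hxy).symm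
      _ ≤ _ := by convert Finset.card_le_card this
  have : (2:ℝ) ≤ (S.sz l : ℝ) := by exact_mod_cast h2
  linarith

end Planar

end Pool.Agent.H27
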