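import Mathlib
import Pool.Agent.H27.Planar

open Finset

set_option linter.unusedSectionVars false

namespace Pool.Agent.H27

theorem exists_R (t : ℕ) : ∃ R : ℕ, R * (R + 1) ≤ 2 * t ∧ 2 * t < (R + 1) * (R + 2) := by
  have hex : ∃ R : ℕ, 2 * t < (R + 1) * (R + 2) := ⟨2 * t, by nlinarith⟩
  refine ⟨Nat.find hex, ?_, Nat.find_spec hex⟩
  rcases h : Nat.find hex with _ | r
  · simp
  · have := Nat.find_min hex (m := r) (by omega)
    push Not at this
    nlinarith

namespace Planar

variable {P L Q : Type*} [Fintype P] [Fintype L] [Fintype Q] (S : Planar P L Q)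

/-- h-index bound -/
theorem hidx {R : ℕ} (hR : 2 * Fintype.card L < (R + 1) * (R + 2)) (T : Finset P)
    (hT : ∀ p ∈ T, R + 1 ≤ S.d p) : T.card ≤ R := by
  by_contra hcon
  push Not at hcon
  obtain ⟨T', hT', hc⟩ := Finset.exists_subset_card_eq (show R + 1 ≤ T.card from hcon)
  have h1 := S.sum_deg_le T'
  have h2 : ∑ p ∈ T', ((R : ℝ) + 1) ≤ ∑ p ∈ T', (S.d p : ℝ) :=
    Finset.sum_le_sum fun p hp => by exact_mod_cast hT p (hT' hp)
  rw [Finset.sum_const, nsmul_eq_mul, hc] at h2
  rw [hc] at h1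
  push_cast at h1 h2
  have h3 : (2 * (Fintype.card L : ℝ)) < ((R : ℝ) + 1) * ((R : ℝ) + 2) := by exact_mod_cast hR
  nlinarith

theorem sumdeg {R : ℕ} (hR : R * (R + 1) ≤ 2 * Fintype.card L) (T : Finset P)
    (hT : T.card ≤ R) : ∑ p ∈ T, (S.d p : ℝ) ≤ 2 * (Fintype.card L : ℝ) := by
  have h1 := S.sum_deg_le T
  have h2 : (T.card : ℝ) ≤ R := by exact_mod_cast hT
  have h3 : (R : ℝ) * ((R : ℝ) + 1) ≤ 2 * (Fintype.card L : ℝ) := by exact_mod_cast hR
  have h4 : (0:ℝ) ≤ (T.card : ℝ) := by positivity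
  nlinarith

open Classical in
/-- points of high degree -/
noncomputable def Hi (R : ℕ) : Finset P := univ.filter (fun p => R < S.d p)

theorem mem_Hi {R : ℕ} {p : P} : p ∈ S.Hi R ↔ R < S.d p := by simp [Hi]

theorem card_Hi {R : ℕ} (hR : 2 * Fintype.card L < (R + 1) * (R + 2)) : (S.Hi R).card ≤ R :=
  S.hidx hR _ fun p hp => by have := S.mem_Hi.mp hp; omega

theorem sum_Hi {R : ℕ} (hR1 : R * (R + 1) ≤ 2 * Fintype.card L)
    (hR2 : 2 * Fintype.card L < (R + 1) * (R + 2)) :
    ∑ p ∈ S.Hi R, (S.d p : ℝ) ≤ 2 * (Fintype.card L : ℝ) :=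
  S.sumdeg hR1 _ (S.card_Hi hR2)

theorem sum_excess {R : ℕ} (hR2 : 2 * Fintype.card L < (R + 1) * (R + 2)) :
    ∑ p ∈ S.Hi R, ((S.d p : ℝ) - R) ≤ (Fintype.card L : ℝ) := by
  have h1 := S.sum_deg_le (S.Hi R)
  have h2 : ((S.Hi R).card : ℝ) ≤ R := by exact_mod_cast S.card_Hi hR2
  rw [Finset.sum_sub_distrib, Finset.sum_const, nsmul_eq_mul]
  have h4 : (0:ℝ) ≤ ((S.Hi R).card : ℝ) := by positivity
  nlinarith

theorem sum_sq_Hi {R : ℕ} (hR1 : R * (R + 1) ≤ 2 * Fintype.card L)
    (hR2 : 2 * Fintype.card L < (R + 1) * (R + 2)) :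
    ∑ p ∈ S.Hi R, (S.d p : ℝ) * ((S.d p : ℝ) - 1) ≤
      ((Fintype.card P : ℝ) - 1) * (Fintype.card L : ℝ) + 2 * (Fintype.card L : ℝ) * R := by
  have h1 := S.sum_Hi hR1 hR2
  have h2 := S.sum_excess hR2
  have h3 : ∀ p ∈ S.Hi R, (S.d p : ℝ) * ((S.d p : ℝ) - 1) ≤
      ((Fintype.card P : ℝ) - 1) * ((S.d p : ℝ) - R) + R * (S.d p : ℝ) := by
    intro p hp
    have h4 : (R : ℝ) < (S.d p : ℝ) := by exact_mod_cast S.mem_Hi.mp hp
    have h5 := S.d_le p
    have h6 : (0:ℝ) ≤ R := by positivity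
    nlinarith
  calc _ ≤ ∑ p ∈ S.Hi R, (((Fintype.card P : ℝ) - 1) * ((S.d p : ℝ) - R) + R * (S.d p : ℝ)) :=
        Finset.sum_le_sum h3
    _ = ((Fintype.card P : ℝ) - 1) * ∑ p ∈ S.Hi R, ((S.d p : ℝ) - R) +
        R * ∑ p ∈ S.Hi R, (S.d p : ℝ) := by
        rw [Finset.sum_add_distrib, Finset.mul_sum, Finset.mul_sum]
    _ ≤ _ := by
        have h6 : (0:ℝ) ≤ R := by positivity
        rcases (S.Hi R).eq_empty_or_nonempty with he | ⟨p, hp⟩
        · rw [he]; simp
          have : (0:ℝ) ≤ (Fintype.card L : ℝ) := by positivity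
          by_cases hP : Fintype.card P = 0
          · have : R = 0 := by
              by_contra hR0
              have hL : 0 < Fintype.card L := by
                rcases Nat.eq_zero_or_pos (Fintype.card L) with h | h
                · rw [h] at hR1
                  have : 0 < R * (R + 1) := by positivity
                  omega
                · exact h
              obtain ⟨l⟩ := Fintype.card_pos_iff.mp hL
              obtain ⟨x, _⟩ := S.line_two l
              exact (Fintype.card_eq_zero_iff.mp hP).false x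
            subst this
            have hL : Fintype.card L = 0 := by omega
            rw [hL, hP]; simp
          · have : (1:ℝ) ≤ (Fintype.card P : ℝ) := by
              exact_mod_cast Nat.one_le_iff_ne_zero.mpr hP
            have h7 : 0 ≤ ((Fintype.card P : ℝ) - 1) * (Fintype.card L : ℝ) :=
              mul_nonneg (by linarith) (by positivity)
            have h8 : 0 ≤ 2 * (Fintype.card L : ℝ) * R := by positivity
            linarith
        · have h5 := S.d_le p
          have h9 : (0:ℝ) ≤ (S.d p : ℝ) := by positivity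
          have h7 : ((Fintype.card P : ℝ) - 1) * ∑ p ∈ S.Hi R, ((S.d p : ℝ) - R) ≤
              ((Fintype.card P : ℝ) - 1) * (Fintype.card L : ℝ) :=
            mul_le_mul_of_nonneg_left h2 (by linarith)
          have h8 : R * ∑ p ∈ S.Hi R, (S.d p : ℝ) ≤ R * (2 * (Fintype.card L : ℝ)) :=
            mul_le_mul_of_nonneg_left h1 h6
          linarith

open Classical in
/-- the pairs (high point, plane) with large local degree -/
noncomputable def ZH (R K : ℕ) : Finset (P × Q) :=
  univ.filter (fun x => R < S.d x.1 ∧ K + 1 ≤ S.D x.1 x.2)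

open Classical in
theorem card_ZH {R K : ℕ} (hR1 : R * (R + 1) ≤ 2 * Fintype.card L)
    (hR2 : 2 * Fintype.card L < (R + 1) * (R + 2)) :
    ((S.ZH R K).card : ℝ) * ((K + 1) * K) ≤
      ((Fintype.card P : ℝ) - 1) * (Fintype.card L : ℝ) + 2 * (Fintype.card L : ℝ) * R := by
  refine le_trans ?_ (S.sum_sq_Hi hR1 hR2)
  have h1 : ((S.ZH R K).card : ℝ) =
      ∑ b ∈ S.Hi R, ((univ.filter (fun σ => K + 1 ≤ S.D b σ)).card : ℝ) := by
    unfold ZH Hi
    rw [Finset.card_filter, Finset.sum_filter]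
    push_cast
    rw [← Finset.univ_product_univ, Finset.sum_product]
    refine Finset.sum_congr rfl fun b _ => ?_
    rw [Finset.card_filter]
    push_cast
    by_cases hb : R < S.d b
    · simp [hb]
    · simp [hb]
  rw [h1, Finset.sum_mul]
  exact Finset.sum_le_sum fun b _ => S.planes_through_point b K

theorem two_le_sz (l : L) : 2 ≤ S.sz l := by
  classical
  obtain ⟨x, y, hxy, hx, hy⟩ := S.line_two l
  unfold sz cnt
  have : ({x, y} : Finset P) ⊆ univ.filter (fun p => S.inc p l) := by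
    intro p hp
    simp only [Finset.mem_insert, Finset.mem_singleton] at hp
    rcases hp with rfl | rfl <;> simp [hx, hy]
  calc 2 = ({x, y} : Finset P).card := (Finset.card_pair hxy).symm
    _ ≤ _ := by convert Finset.card_le_card this

theorem exists_triangle (σ : Q) : ∃ f : Fin 3 → L × P, Function.Injective f ∧
    ∀ i, ¬ S.inc (f i).2 (f i).1 ∧ S.sub (f i).1 σ ∧ S.mem (f i).2 σ := by
  obtain ⟨x, y, z, hx, hy, hz, hxy, hcol⟩ := S.plane_three σ
  obtain ⟨l1, h1x, h1y⟩ := S.line_exists x y hxy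
  have h1z : ¬ S.inc z l1 := hcol l1 h1x h1y
  have hxz : x ≠ z := by rintro rfl; exact h1z h1x
  have hyz : y ≠ z := by rintro rfl; exact h1z h1y
  obtain ⟨l2, h2y, h2z⟩ := S.line_exists y z hyz
  obtain ⟨l3, h3x, h3z⟩ := S.line_exists x z hxz
  have h2x : ¬ S.inc x l2 := fun h => hcol l2 h h2y h2z
  have h3y : ¬ S.inc y l3 := fun h => hcol l3 h3x h h3z
  refine ⟨![(l1, z), (l2, x), (l3, y)], ?_, ?_⟩
  · intro i j hij
    fin_cases i <;> fin_cases j <;> simp_all
  · intro i
    fin_cases i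
    · exact ⟨h1z, S.sub_of_mem x y l1 σ hxy hx hy h1x h1y, hz⟩
    · exact ⟨h2x, S.sub_of_mem y z l2 σ hyz hy hz h2y h2z, hx⟩
    · exact ⟨h3y, S.sub_of_mem x z l3 σ hxz hx hz h3x h3z, hy⟩

include S in
open Classical in
/-- trivial upper bound for the number of planes -/
theorem planes_le : 3 * (Fintype.card Q : ℝ) ≤
    (Fintype.card L : ℝ) * ((Fintype.card P : ℝ) - 2) := by
  have h1 : 3 * (Fintype.card Q : ℝ) ≤
      ((univ.filter (fun x : L × P => ¬ S.inc x.2 x.1)).card : ℝ) := by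
    have : Fintype.card (Q × Fin 3) ≤ (univ.filter (fun x : L × P => ¬ S.inc x.2 x.1)).card := by
      rw [← Finset.card_univ]
      refine Finset.card_le_card_of_injOn
        (fun x => (S.exists_triangle x.1).choose x.2) ?_ ?_
      · intro x _
        have := (S.exists_triangle x.1).choose_spec.2 x.2
        simp [this.1]
      · rintro ⟨σ, i⟩ _ ⟨τ, j⟩ _ hij
        simp only at hij
        have h1 := (S.exists_triangle σ).choose_spec
        have h2 := (S.exists_triangle τ).choose_spec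
        have h3 := h1.2 i
        have h4 := h2.2 j
        rw [← hij] at h4
        have hστ : σ = τ := S.plane_unique _ _ σ τ h3.1 h3.2.1 h3.2.2 h4.2.1 h4.2.2
        subst hστ
        have := h1.1 hij
        rw [this]
    rw [Fintype.card_prod, Fintype.card_fin] at this
    have h5 : ((Fintype.card Q * 3 : ℕ) : ℝ) ≤
      ((univ.filter (fun x : L × P => ¬ S.inc x.2 x.1)).card : ℝ) := by exact_mod_cast this
    push_cast at h5
    linarith
  refine h1.trans ?_
  rw [Finset.card_filter]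
  push_cast
  rw [← Finset.univ_product_univ, Finset.sum_product]
  have h2 : ∀ l : L, ∑ p : P, (if ¬ S.inc p l then (1:ℝ) else 0) ≤ (Fintype.card P : ℝ) - 2 := by
    intro l
    have h3 : (S.sz l : ℝ) = ∑ p : P, if S.inc p l then (1:ℝ) else 0 := cnt_eq_sum _ _ _
    have h4 : (2:ℝ) ≤ (S.sz l : ℝ) := by exact_mod_cast S.two_le_sz l
    have h5 : ∑ p : P, (if ¬ S.inc p l then (1:ℝ) else 0) =
        ∑ p : P, (1 - if S.inc p l then (1:ℝ) else 0) := by
      refine Finset.sum_congr rfl fun p _ => ?_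
      by_cases h : S.inc p l <;> simp [h]
    rw [h5, Finset.sum_sub_distrib, ← h3]
    simp
    linarith
  calc _ ≤ ∑ _l : L, ((Fintype.card P : ℝ) - 2) := Finset.sum_le_sum fun l _ => h2 l
    _ = _ := by rw [Finset.sum_const, nsmul_eq_mul, Finset.card_univ]

end Planar

end Pool.Agent.H27
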