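import Mathlib
import Pool.Agent.H27.Count

open Finset

set_option linter.unusedSectionVars false

namespace Pool.Agent.H27
namespace Planar

variable {P L Q : Type*} [Fintype P] [Fintype L] [Fintype Q] (S : Planar P L Q)

theorem exists_key : ∃ key : P → ℕ, Function.Injective key ∧
    ∀ p q, key p ≤ key q → S.d p ≤ S.d q := by
  classical
  let e := Fintype.equivFin P
  refine ⟨fun p => S.d p * Fintype.card P + (e p : ℕ), ?_, ?_⟩
  · intro p q h
    simp only at h
    have hp := (e p).2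
    have hq := (e q).2
    have hd : S.d p = S.d q := by
      by_contra hne
      rcases Nat.lt_or_gt_of_ne hne with h1 | h1
      · have : (S.d p + 1) * Fintype.card P ≤ S.d q * Fintype.card P :=
          Nat.mul_le_mul_right _ h1
        nlinarith
      · have : (S.d q + 1) * Fintype.card P ≤ S.d p * Fintype.card P :=
          Nat.mul_le_mul_right _ h1
        nlinarith
    rw [hd] at h
    have : (e p : ℕ) = (e q : ℕ) := by omega
    exact e.injective (Fin.ext this)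
  · intro p q h
    simp only at h
    by_contra hlt
    push Not at hlt
    have hq := (e q).2
    have : (S.d q + 1) * Fintype.card P ≤ S.d p * Fintype.card P :=
      Nat.mul_le_mul_right _ hlt
    nlinarith

/-- ordering data -/
structure Ord (S : Planar P L Q) where
  key : P → ℕ
  inj : Function.Injective key
  mono : ∀ p q, key p ≤ key q → S.d p ≤ S.d q
  lo : L → P
  hi : L → P
  lp : Q → P
  lo_inc : ∀ l, S.inc (lo l) l
  hi_inc : ∀ l, S.inc (hi l) l
  lo_ne_hi : ∀ l, lo l ≠ hi l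
  lo_le : ∀ l p, S.inc p l → key (lo l) ≤ key p
  lp_mem : ∀ σ, S.mem (lp σ) σ
  lp_le : ∀ σ p, S.mem p σ → key (lp σ) ≤ key p

theorem exists_ord : Nonempty (Ord S) := by
  classical
  obtain ⟨key, hinj, hmono⟩ := S.exists_key
  have h1 : ∀ l, ∃ p, S.inc p l ∧ ∀ q, S.inc q l → key p ≤ key q := by
    intro l
    obtain ⟨x, y, hxy, hx, hy⟩ := S.line_two l
    obtain ⟨p, hp, hp'⟩ := Finset.exists_min_image (univ.filter (fun p => S.inc p l)) key
      ⟨x, by simp [hx]⟩
    exact ⟨p, by simpa using hp, fun q hq => hp' q (by simp [hq])⟩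
  have h2 : ∀ σ, ∃ p, S.mem p σ ∧ ∀ q, S.mem q σ → key p ≤ key q := by
    intro σ
    obtain ⟨x, y, z, hx, hy, hz, _⟩ := S.plane_three σ
    obtain ⟨p, hp, hp'⟩ := Finset.exists_min_image (univ.filter (fun p => S.mem p σ)) key
      ⟨x, by simp [hx]⟩
    exact ⟨p, by simpa using hp, fun q hq => hp' q (by simp [hq])⟩
  choose lo hlo1 hlo2 using h1
  choose lp hlp1 hlp2 using h2
  have h3 : ∀ l, ∃ p, S.inc p l ∧ lo l ≠ p := by
    intro l
    obtain ⟨x, y, hxy, hx, hy⟩ := S.line_two l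
    by_cases h : lo l = x
    · exact ⟨y, hy, by rw [h]; exact hxy⟩
    · exact ⟨x, hx, h⟩
  choose hi hhi1 hhi2 using h3
  exact ⟨⟨key, hinj, hmono, lo, hi, lp, hlo1, hhi1, hhi2, hlo2, hlp1, hlp2⟩⟩

variable {S} (O : Ord S)

theorem Ord.lo_eq_lp {l : L} {σ : Q} (h1 : S.inc (O.lp σ) l) (h2 : S.sub l σ) :
    O.lo l = O.lp σ := by
  apply O.inj
  apply le_antisymm
  · exact O.lo_le l _ h1
  · exact O.lp_le σ _ (S.mem_of_sub l σ _ h2 (O.lo_inc l))

theorem Ord.d_lo_le (l : L) : S.d (O.lo l) ≤ S.d (O.hi l) :=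
  O.mono _ _ (O.lo_le l _ (O.hi_inc l))

theorem Ord.key_lt (l : L) : O.key (O.lo l) < O.key (O.hi l) :=
  lt_of_le_of_ne (O.lo_le l _ (O.hi_inc l)) fun h => O.lo_ne_hi l (O.inj h)

/-- a line is determined by its two chosen points -/
theorem Ord.line_ext {l l' : L} (h1 : O.lo l = O.lo l') (h2 : O.hi l = O.hi l') : l = l' :=
  S.line_unique (O.lo l) (O.hi l) l l' (O.lo_ne_hi l) (O.lo_inc l) (O.hi_inc l)
    (h1 ▸ O.lo_inc l') (h2 ▸ O.hi_inc l')

variable (k : P → ℕ)

open Classical in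
/-- short lines with lowest point `a` -/
noncomputable def Ord.A (a : P) : Finset L := univ.filter (fun l => O.lo l = a ∧ S.sz l ≤ k a)

open Classical in
/-- long lines through `a` -/
noncomputable def I (S : Planar P L Q) (k : P → ℕ) (a : P) : Finset L :=
  (S.Lt a).filter (fun l => k a + 1 ≤ S.sz l)

theorem Ord.mem_A {a : P} {l : L} : l ∈ O.A k a ↔ O.lo l = a ∧ S.sz l ≤ k a := by simp [Ord.A]

theorem mem_I {a : P} {l : L} : l ∈ I S k a ↔ S.inc a l ∧ k a + 1 ≤ S.sz l := by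
  simp [I, mem_Lt]

theorem Ord.A_inc {a : P} {l : L} (h : l ∈ O.A k a) : S.inc a l := by
  have := (O.mem_A k).mp h
  rw [← this.1]; exact O.lo_inc l

/-- total weight of the long lines -/
theorem U_lower (a : P) (N : ℝ) (hN : N = (Fintype.card P : ℝ) - 1) (hk1 : 1 ≤ k a)
    (hk : 4 * ((k a : ℝ) - 1) * (S.d a : ℝ) ≤ 3 * N) :
    N / 4 ≤ ∑ l ∈ I S k a, ((S.sz l : ℝ) - 1) := by
  classical
  have h1 := S.sum_sz a
  rw [← hN] at h1
  have h2 : ∑ l ∈ S.Lt a, ((S.sz l : ℝ) - 1) = ∑ l ∈ I S k a, ((S.sz l : ℝ) - 1) +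
      ∑ l ∈ (S.Lt a).filter (fun l => ¬ k a + 1 ≤ S.sz l), ((S.sz l : ℝ) - 1) := by
    unfold I
    rw [← Finset.sum_filter_add_sum_filter_not (S.Lt a) (fun l => k a + 1 ≤ S.sz l)]
  have h3 : ∑ l ∈ (S.Lt a).filter (fun l => ¬ k a + 1 ≤ S.sz l), ((S.sz l : ℝ) - 1) ≤
      ((k a : ℝ) - 1) * (S.d a : ℝ) := by
    have hk1' : (1:ℝ) ≤ (k a : ℝ) := by exact_mod_cast hk1
    calc ∑ l ∈ (S.Lt a).filter (fun l => ¬ k a + 1 ≤ S.sz l), ((S.sz l : ℝ) - 1)
        ≤ ∑ l ∈ (S.Lt a).filter (fun l => ¬ k a + 1 ≤ S.sz l), ((k a : ℝ) - 1) := by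
          refine Finset.sum_le_sum fun l hl => ?_
          rw [Finset.mem_filter] at hl
          have : S.sz l ≤ k a := by omega
          have : (S.sz l : ℝ) ≤ (k a : ℝ) := by exact_mod_cast this
          linarith
      _ ≤ ∑ l ∈ S.Lt a, ((k a : ℝ) - 1) :=
          Finset.sum_le_sum_of_subset_of_nonneg (Finset.filter_subset _ _)
            fun _ _ _ => by linarith
      _ = _ := by rw [Finset.sum_const, nsmul_eq_mul]; unfold d; ring
  linarith

/-- sum of the degrees of the second points -/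
theorem Ord.sum_hi_le {R : ℕ} (hR1 : R * (R + 1) ≤ 2 * Fintype.card L)
    (hR2 : 2 * Fintype.card L < (R + 1) * (R + 2)) (a : P) :
    ∑ l ∈ O.A k a, ((S.d (O.hi l) : ℝ) - 1) ≤ 2 * (Fintype.card L : ℝ) := by
  classical
  have hinj : Set.InjOn O.hi (O.A k a : Set L) := by
    intro l hl l' hl' h
    have h1 := (O.mem_A k).mp hl
    have h2 := (O.mem_A k).mp hl'
    exact O.line_ext (h1.1.trans h2.1.symm) h
  have h1 : ∑ l ∈ O.A k a, (S.d (O.hi l) : ℝ) = ∑ p ∈ (O.A k a).image O.hi, (S.d p : ℝ) := by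
    rw [Finset.sum_image hinj]
  have hcard : ((O.A k a).image O.hi).card = (O.A k a).card := Finset.card_image_of_injOn hinj
  have hdA : (O.A k a).card ≤ S.d a := by
    unfold d
    exact Finset.card_le_card fun l hl => S.mem_Lt.mpr (O.A_inc k hl)
  have hle : ((O.A k a).image O.hi).card ≤ R := by
    by_contra hcon
    push Not at hcon
    have := S.hidx hR2 ((O.A k a).image O.hi) (by
      intro p hp
      rw [Finset.mem_image] at hp
      obtain ⟨l, hl, rfl⟩ := hp
      have h2 := (O.mem_A k).mp hl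
      have h3 := O.d_lo_le l
      rw [h2.1] at h3
      omega)
    omega
  have h2 := S.sumdeg hR1 _ hle
  rw [← h1] at h2
  rw [Finset.sum_sub_distrib]
  have : 0 ≤ ∑ _l ∈ O.A k a, (1:ℝ) := Finset.sum_nonneg fun _ _ => by norm_num
  linarith

open Classical in
/-- planes of short type with lowest point `a` -/
noncomputable def Ord.TS (a : P) : Finset Q :=
  univ.filter (fun σ => O.lp σ = a ∧ ∀ l, S.inc a l → S.sub l σ → S.sz l ≤ k a)

open Classical in
/-- the number of planes through `l` with at least two long lines through the lowest point -/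
noncomputable def Ord.dl (l : L) : ℕ :=
  (univ.filter (fun σ => S.sub l σ ∧ 2 ≤ cnt S.sub (I S k (O.lo l)) σ)).card

open Classical in
theorem Ord.typeS {R : ℕ} (hR1 : R * (R + 1) ≤ 2 * Fintype.card L)
    (hR2 : 2 * Fintype.card L < (R + 1) * (R + 2)) (a : P)
    (N : ℝ) (hN : N = (Fintype.card P : ℝ) - 1) (hNpos : 0 < N) (hk1 : 1 ≤ k a)
    (hk : 4 * ((k a : ℝ) - 1) * (S.d a : ℝ) ≤ 3 * N) :
    2 * ((O.TS k a).card : ℝ) ≤ 16 * ((O.A k a).card : ℝ) * (Fintype.card L : ℝ) / N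
      + ∑ l ∈ O.A k a, (O.dl k l : ℝ) := by
  have hU := U_lower (S := S) k a N hN hk1 hk
  have hUpos : 0 < ∑ l ∈ I S k a, ((S.sz l : ℝ) - 1) := by linarith
  have hdisj : Disjoint (O.A k a) (I S k a) := by
    rw [Finset.disjoint_left]
    intro l h1 h2
    have h1' := ((O.mem_A k).mp h1).2
    have h2' := ((mem_I k).mp h2).2
    omega
  have hinc : ∀ l ∈ O.A k a ∪ I S k a, S.inc a l := by
    intro l hl
    rw [Finset.mem_union] at hl
    rcases hl with hl | hl
    · exact O.A_inc k hl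
    · exact ((mem_I k).mp hl).1
  have hD1 : ∀ l ∈ O.A k a, ∀ σ, S.sub l σ → 1 ≤ S.D (O.hi l) σ := by
    intro l _ σ hlσ
    unfold D cnt
    exact Finset.card_pos.mpr ⟨l, by simp [S.mem_Lt.mpr (O.hi_inc l), hlσ]⟩
  have hmain := main_lemma S.sub (O.A k a) (I S k a) hdisj
    (fun l hl l' hl' hne => S.exists_unique_plane a l l' (hinc l hl) (hinc l' hl') hne)
    (fun l => (S.sz l : ℝ) - 1)
    (fun l _ => by
      have : (2:ℝ) ≤ (S.sz l : ℝ) := by exact_mod_cast S.two_le_sz l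
      linarith)
    (fun l σ => (S.D (O.hi l) σ : ℝ) - 1)
    (fun l => (S.d (O.hi l) : ℝ) - 1)
    (fun l hl σ hlσ => by
      have : (1:ℝ) ≤ (S.D (O.hi l) σ : ℝ) := by exact_mod_cast hD1 l hl σ hlσ
      linarith)
    (fun l hl σ hlσ l' hl' hl'σ => by
      have h1 : ¬ S.inc (O.hi l) l' := by
        intro hcon
        have hlo : O.lo l = a := ((O.mem_A k).mp hl).1
        have : l = l' := S.line_unique (O.lo l) (O.hi l) l l' (O.lo_ne_hi l) (O.lo_inc l)
          (O.hi_inc l) (by rw [hlo]; exact ((mem_I k).mp hl').1) hcon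
        subst this
        exact (Finset.disjoint_left.mp hdisj hl hl').elim
      have h2 := S.sz_le_D (O.hi l) l' σ h1 hl'σ (S.mem_of_sub l σ _ hlσ (O.hi_inc l))
      have h3 : (S.sz l' : ℝ) ≤ (S.D (O.hi l) σ : ℝ) := by exact_mod_cast h2
      linarith)
    (fun l hl => by
      rw [S.line_count_planes (O.hi l) l (O.hi_inc l)])
    hUpos
  have hsum := O.sum_hi_le k hR1 hR2 a
  -- lower bound for the left side
  have hleft : 2 * ((O.TS k a).card : ℝ) ≤
      ∑ σ with cnt S.sub (I S k a) σ < 2,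
        (cnt S.sub (O.A k a) σ : ℝ) * ((cnt S.sub (O.A k a) σ : ℝ) - 1) := by
    have hnn : ∀ s : ℕ, 0 ≤ (s : ℝ) * ((s : ℝ) - 1) := by
      intro s
      rcases s with _ | s
      · norm_num
      · push_cast; nlinarith [(by positivity : (0:ℝ) ≤ (s:ℝ))]
    have hsub : O.TS k a ⊆ univ.filter (fun σ => cnt S.sub (I S k a) σ < 2) := by
      intro σ hσ
      unfold Ord.TS at hσ
      rw [Finset.mem_filter] at hσ ⊢
      refine ⟨Finset.mem_univ _, ?_⟩
      have : cnt S.sub (I S k a) σ = 0 := by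
        unfold cnt
        rw [Finset.card_eq_zero, Finset.filter_eq_empty_iff]
        intro l hl hlσ
        have h1 := (mem_I k).mp hl
        have h2 := hσ.2.2 l h1.1 hlσ
        omega
      omega
    have htwo : ∀ σ ∈ O.TS k a, 2 ≤ cnt S.sub (O.A k a) σ := by
      intro σ hσ
      unfold Ord.TS at hσ
      rw [Finset.mem_filter] at hσ
      obtain ⟨_, hlp, hshort⟩ := hσ
      obtain ⟨l, l', hne, h1, h2, h3, h4⟩ := S.exists_two_lines σ a (hlp ▸ O.lp_mem σ)
      have hl : l ∈ (O.A k a).filter (fun l => S.sub l σ) := by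
        rw [Finset.mem_filter, O.mem_A]
        exact ⟨⟨by rw [← hlp]; exact O.lo_eq_lp (hlp ▸ h1) h3, hshort l h1 h3⟩, h3⟩
      have hl' : l' ∈ (O.A k a).filter (fun l => S.sub l σ) := by
        rw [Finset.mem_filter, O.mem_A]
        exact ⟨⟨by rw [← hlp]; exact O.lo_eq_lp (hlp ▸ h2) h4, hshort l' h2 h4⟩, h4⟩
      unfold cnt
      exact Finset.one_lt_card.mpr ⟨l, hl, l', hl', hne⟩
    calc 2 * ((O.TS k a).card : ℝ) = ∑ _σ ∈ O.TS k a, (2:ℝ) := by
          rw [Finset.sum_const, nsmul_eq_mul]; ring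
      _ ≤ ∑ σ ∈ O.TS k a, (cnt S.sub (O.A k a) σ : ℝ) * ((cnt S.sub (O.A k a) σ : ℝ) - 1) := by
          refine Finset.sum_le_sum fun σ hσ => ?_
          have : (2:ℝ) ≤ (cnt S.sub (O.A k a) σ : ℝ) := by exact_mod_cast htwo σ hσ
          nlinarith
      _ ≤ _ := Finset.sum_le_sum_of_subset_of_nonneg hsub fun σ _ _ => hnn _
  have hright : 2 * (((O.A k a).card : ℝ) / ∑ l ∈ I S k a, ((S.sz l : ℝ) - 1)) *
      ∑ l ∈ O.A k a, ((S.d (O.hi l) : ℝ) - 1) ≤
      16 * ((O.A k a).card : ℝ) * (Fintype.card L : ℝ) / N := by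
    have h1 : ((O.A k a).card : ℝ) / ∑ l ∈ I S k a, ((S.sz l : ℝ) - 1) ≤
        ((O.A k a).card : ℝ) / (N / 4) :=
      div_le_div_of_nonneg_left (by positivity) (by positivity) hU
    have h2 : 0 ≤ ∑ l ∈ O.A k a, ((S.d (O.hi l) : ℝ) - 1) := by
      refine Finset.sum_nonneg fun l _ => ?_
      have : 1 ≤ S.d (O.hi l) := by
        unfold d
        exact Finset.card_pos.mpr ⟨l, S.mem_Lt.mpr (O.hi_inc l)⟩
      have : (1:ℝ) ≤ (S.d (O.hi l) : ℝ) := by exact_mod_cast this
      linarith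
    calc 2 * (((O.A k a).card : ℝ) / ∑ l ∈ I S k a, ((S.sz l : ℝ) - 1)) *
        ∑ l ∈ O.A k a, ((S.d (O.hi l) : ℝ) - 1)
        ≤ 2 * (((O.A k a).card : ℝ) / (N / 4)) * (2 * (Fintype.card L : ℝ)) := by
          apply mul_le_mul _ hsum h2 (by positivity)
          linarith
      _ = _ := by field_simp; ring
  have hdl : ∑ l ∈ O.A k a,
      ((univ.filter (fun σ => S.sub l σ ∧ 2 ≤ cnt S.sub (I S k a) σ)).card : ℝ) =
      ∑ l ∈ O.A k a, (O.dl k l : ℝ) := by
    refine Finset.sum_congr rfl fun l hl => ?_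
    have := ((O.mem_A k).mp hl).1
    unfold Ord.dl
    rw [this]
  rw [hdl] at hmain
  linarith

end Planar
end Pool.Agent.H27
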