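import Mathlib
import Pool.Agent.H27.Main

open Finset

set_option linter.unusedSectionVars false

namespace Pool.Agent.H27
namespace Planar

variable {P L Q : Type*} [Fintype P] [Fintype L] [Fintype Q] (S : Planar P L Q)

include S in
/-- each plane is determined by an ordered pair of its lines -/
theorem planes_le_sq : 2 * Fintype.card Q ≤ Fintype.card L ^ 2 := by
  classical
  have h : ∀ σ : Q, ∃ x : L × L, ∃ a, x.1 ≠ x.2 ∧ S.inc a x.1 ∧ S.inc a x.2 ∧
      S.sub x.1 σ ∧ S.sub x.2 σ := by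
    intro σ
    obtain ⟨x, _, _, hx, _⟩ := S.plane_three σ
    obtain ⟨l, l', h1, h2, h3, h4, h5⟩ := S.exists_two_lines σ x hx
    exact ⟨(l, l'), x, h1, h2, h3, h4, h5⟩
  choose x a h1 h2 h3 h4 h5 using h
  have hcard : Fintype.card (Q × Bool) ≤ Fintype.card (L × L) := by
    refine Fintype.card_le_of_injective
      (fun y => if y.2 then x y.1 else ((x y.1).2, (x y.1).1)) ?_
    rintro ⟨σ, b⟩ ⟨τ, c⟩ hbc
    simp only at hbc
    have hu : ∀ σ τ : Q, S.sub (x σ).1 τ → S.sub (x σ).2 τ → σ = τ := by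
      intro σ τ h6 h7
      exact (S.exists_unique_plane (a σ) _ _ (h2 σ) (h3 σ) (h1 σ)).unique
        ⟨h4 σ, h5 σ⟩ ⟨h6, h7⟩
    cases b <;> cases c
    · simp only [Bool.false_eq_true, ↓reduceIte, Prod.mk.injEq] at hbc
      have : σ = τ := hu σ τ (hbc.2 ▸ h4 τ) (hbc.1 ▸ h5 τ)
      rw [this]
    · simp only [Bool.false_eq_true, ↓reduceIte] at hbc
      have e1 : (x σ).2 = (x τ).1 := by rw [← hbc]
      have e2 : (x σ).1 = (x τ).2 := by rw [← hbc]
      have : σ = τ := hu σ τ (e2 ▸ h5 τ) (e1 ▸ h4 τ)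
      subst this
      exact absurd e2 (h1 σ)
    · simp only [Bool.false_eq_true, ↓reduceIte] at hbc
      have e1 : (x σ).1 = (x τ).2 := by rw [hbc]
      have e2 : (x σ).2 = (x τ).1 := by rw [hbc]
      have : σ = τ := hu σ τ (e1 ▸ h5 τ) (e2 ▸ h4 τ)
      subst this
      exact absurd e1 (h1 σ)
    · simp only [↓reduceIte] at hbc
      have : σ = τ := hu σ τ (hbc ▸ h4 τ) (hbc ▸ h5 τ)
      rw [this]
  rw [Fintype.card_prod, Fintype.card_prod, Fintype.card_bool] at hcard
  nlinarith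

variable {S} (O : Ord S) (k : P → ℕ)

open Classical in
/-- the number of planes through `l` in which the second point of `l` has large degree -/
noncomputable def Ord.fl (l : L) : ℕ :=
  (univ.filter (fun σ => S.sub l σ ∧ k (O.lo l) + 1 ≤ S.D (O.hi l) σ)).card

/-- a long line through the lowest point makes the degree of the second point large -/
theorem Ord.long_D {l m : L} {σ : Q} (hl : S.sub l σ) (hm : m ∈ I S k (O.lo l))
    (hmσ : S.sub m σ) (hne : l ≠ m) : k (O.lo l) + 1 ≤ S.D (O.hi l) σ := by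
  have h1 := (mem_I k).mp hm
  have h2 : ¬ S.inc (O.hi l) m := fun h =>
    hne (S.line_unique _ _ l m (O.lo_ne_hi l) (O.lo_inc l) (O.hi_inc l) h1.1 h)
  exact h1.2.trans (S.sz_le_D _ m σ h2 hmσ (S.mem_of_sub l σ _ hl (O.hi_inc l)))

theorem Ord.long_D_of_cnt {l : L} {σ : Q} (hl : S.sub l σ)
    (hc : 2 ≤ cnt S.sub (I S k (O.lo l)) σ) : k (O.lo l) + 1 ≤ S.D (O.hi l) σ := by
  classical
  unfold cnt at hc
  obtain ⟨m, hm, m', hm', hne⟩ := Finset.one_lt_card.mp hc
  rw [Finset.mem_filter] at hm hm'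
  by_cases h : l = m
  · exact O.long_D k hl hm'.1 hm'.2 (by rw [h]; exact hne)
  · exact O.long_D k hl hm.1 hm.2 h

theorem Ord.dl_le_fl (l : L) : O.dl k l ≤ O.fl k l := by
  classical
  unfold Ord.dl Ord.fl
  refine Finset.card_le_card fun σ hσ => ?_
  rw [Finset.mem_filter] at hσ ⊢
  exact ⟨hσ.1, hσ.2.1, O.long_D_of_cnt k hσ.2.1 hσ.2.2⟩

open Classical in
/-- planes of long type -/
noncomputable def Ord.TB : Finset Q :=
  univ.filter (fun σ => ¬ ∀ l, S.inc (O.lp σ) l → S.sub l σ → S.sz l ≤ k (O.lp σ))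

theorem Ord.card_Q : (Fintype.card Q : ℝ) ≤ ∑ a, ((O.TS k a).card : ℝ) + ((O.TB k).card : ℝ) := by
  classical
  have h : (univ : Finset Q) ⊆ (univ.biUnion fun a => O.TS k a) ∪ O.TB k := by
    intro σ _
    rw [Finset.mem_union]
    by_cases hσ : ∀ l, S.inc (O.lp σ) l → S.sub l σ → S.sz l ≤ k (O.lp σ)
    · left
      rw [Finset.mem_biUnion]
      refine ⟨O.lp σ, Finset.mem_univ _, ?_⟩
      unfold Ord.TS
      rw [Finset.mem_filter]
      exact ⟨Finset.mem_univ _, rfl, hσ⟩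
    · right
      unfold Ord.TB
      rw [Finset.mem_filter]
      exact ⟨Finset.mem_univ _, hσ⟩
  have h1 := Finset.card_le_card h
  have h2 := Finset.card_union_le (univ.biUnion fun a => O.TS k a) (O.TB k)
  have h3 : (univ.biUnion fun a => O.TS k a).card ≤ ∑ a, (O.TS k a).card :=
    Finset.card_biUnion_le
  rw [Finset.card_univ] at h1
  have : Fintype.card Q ≤ ∑ a, (O.TS k a).card + (O.TB k).card := by omega
  exact_mod_cast this

open Classical in
/-- good lines -/
noncomputable def Ord.Gd (R : ℕ) : Finset L :=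
  univ.filter (fun l => R < S.d (O.lo l) ∨ S.d (O.hi l) ≤ R)

open Classical in
/-- planes of long type -/
theorem Ord.card_TB (R K : ℕ) (hkK : ∀ a, S.d a ≤ R → k a = K) :
    ((O.TB k).card : ℝ) ≤ ∑ l ∈ O.Gd R, (O.fl k l : ℝ) + ((S.ZH R K).card : ℝ) := by
  have h : O.TB k ⊆ ((O.Gd R).biUnion fun l =>
      univ.filter (fun σ => S.sub l σ ∧ k (O.lo l) + 1 ≤ S.D (O.hi l) σ)) ∪
      (S.ZH R K).image Prod.snd := by
    intro σ hσ
    unfold Ord.TB at hσ
    rw [Finset.mem_filter] at hσ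
    obtain ⟨_, hσ⟩ := hσ
    push Not at hσ
    obtain ⟨m, hm1, hm2, hm3⟩ := hσ
    obtain ⟨c, hc, hcm⟩ := S.exists_off_line σ m
    have hac : O.lp σ ≠ c := by intro h; rw [h] at hm1; exact hcm hm1
    obtain ⟨x, hx1, hx2⟩ := S.line_exists (O.lp σ) c hac
    have hxσ : S.sub x σ := S.sub_of_mem _ _ x σ hac (O.lp_mem σ) hc hx1 hx2
    have hlo : O.lo x = O.lp σ := O.lo_eq_lp hx1 hxσ
    have hxm : x ≠ m := by rintro rfl; exact hcm hx2
    have hD : k (O.lo x) + 1 ≤ S.D (O.hi x) σ := by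
      refine O.long_D k hxσ ?_ hm2 hxm
      rw [mem_I, hlo]
      exact ⟨hm1, hm3⟩
    rw [Finset.mem_union]
    by_cases hg : R < S.d (O.lo x) ∨ S.d (O.hi x) ≤ R
    · left
      rw [Finset.mem_biUnion]
      refine ⟨x, ?_, ?_⟩
      · unfold Ord.Gd; simp [hg]
      · rw [Finset.mem_filter]
        exact ⟨Finset.mem_univ _, hxσ, hD⟩
    · right
      push Not at hg
      rw [Finset.mem_image]
      refine ⟨(O.hi x, σ), ?_, rfl⟩
      unfold ZH
      rw [Finset.mem_filter]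
      refine ⟨Finset.mem_univ _, hg.2, ?_⟩
      have := hkK (O.lo x) hg.1
      rw [this] at hD
      exact hD
  have h1 := Finset.card_le_card h
  have h2 := h1.trans (Finset.card_union_le _ _)
  have h3 : ((O.Gd R).biUnion fun l =>
      univ.filter (fun σ => S.sub l σ ∧ k (O.lo l) + 1 ≤ S.D (O.hi l) σ)).card ≤
      ∑ l ∈ O.Gd R, O.fl k l := Finset.card_biUnion_le
  have h4 : ((S.ZH R K).image Prod.snd).card ≤ (S.ZH R K).card := Finset.card_image_le
  have : (O.TB k).card ≤ ∑ l ∈ O.Gd R, O.fl k l + (S.ZH R K).card := by omega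
  exact_mod_cast this

open Classical in
/-- second part of `dl` for the bad lines -/
noncomputable def Ord.cl (K : ℕ) (l : L) : ℕ :=
  (univ.filter (fun σ => S.sub l σ ∧ 2 ≤ cnt S.sub (I S k (O.lo l)) σ ∧
    S.D (O.lo l) σ ≤ K)).card

open Classical in
theorem Ord.dl_le_bad (K : ℕ) (l : L) :
    O.dl k l ≤ (univ.filter (fun σ => S.sub l σ ∧ K + 1 ≤ S.D (O.lo l) σ)).card + O.cl k K l := by
  unfold Ord.dl Ord.cl
  refine le_trans (Finset.card_le_card ?_) (Finset.card_union_le _ _)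
  intro σ hσ
  rw [Finset.mem_filter] at hσ
  rw [Finset.mem_union, Finset.mem_filter, Finset.mem_filter]
  by_cases h : K + 1 ≤ S.D (O.lo l) σ
  · left; exact ⟨hσ.1, hσ.2.1, h⟩
  · right; exact ⟨hσ.1, hσ.2.1, hσ.2.2, by omega⟩

open Classical in
theorem Ord.sum_cl (R K : ℕ) (hkK : ∀ a, S.d a ≤ R → k a = K) :
    ∑ l with ¬ (R < S.d (O.lo l) ∨ S.d (O.hi l) ≤ R), (O.cl k K l : ℝ) ≤
      ((S.ZH R K).card : ℝ) := by
  set B : Finset L := univ.filter (fun l => ¬ (R < S.d (O.lo l) ∨ S.d (O.hi l) ≤ R)) with hB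
  set G : L → Finset Q := fun l => univ.filter (fun σ => S.sub l σ ∧
    2 ≤ cnt S.sub (I S k (O.lo l)) σ ∧ S.D (O.lo l) σ ≤ K) with hG
  have h1 : ∑ l ∈ B, O.cl k K l = (B.sigma G).card := by
    rw [Finset.card_sigma]; rfl
  have h2 : (B.sigma G).card ≤ (S.ZH R K).card := by
    refine Finset.card_le_card_of_injOn (fun x => (O.hi x.1, x.2)) ?_ ?_
    · rintro ⟨l, σ⟩ hx
      rw [Finset.mem_coe, Finset.mem_sigma] at hx
      simp only [hB, hG, Finset.mem_filter, Finset.mem_univ, true_and, not_or, not_lt,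
        not_le] at hx
      obtain ⟨⟨h1, h2⟩, h3, h4, _⟩ := hx
      have h5 := O.long_D_of_cnt k h3 h4
      rw [hkK _ h1] at h5
      unfold ZH
      rw [Finset.mem_coe, Finset.mem_filter]
      exact ⟨Finset.mem_univ _, h2, h5⟩
    · rintro ⟨l, σ⟩ hx ⟨l', σ'⟩ hx' heq
      rw [Finset.mem_coe, Finset.mem_sigma] at hx hx'
      simp only [hB, hG, Finset.mem_filter, Finset.mem_univ, true_and, not_or, not_lt,
        not_le] at hx hx'
      obtain ⟨⟨h1, h2⟩, h3, h4, h5⟩ := hx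
      obtain ⟨⟨h1', h2'⟩, h3', h4', h5'⟩ := hx'
      simp only [Prod.mk.injEq] at heq
      obtain ⟨hhi, rfl⟩ := heq
      have hlo : O.lo l = O.lo l' := by
        by_contra hne
        unfold cnt at h4
        obtain ⟨m, hm, m', hm', hmm⟩ := Finset.one_lt_card.mp h4
        rw [Finset.mem_filter] at hm hm'
        have hthrough : ∀ m, m ∈ I S k (O.lo l) → S.sub m σ → S.inc (O.lo l') m := by
          intro m hm hmσ
          by_contra hcon
          have h6 := S.sz_le_D _ m σ hcon hmσ (S.mem_of_sub l' σ _ h3' (O.lo_inc l'))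
          have h7 := ((mem_I k).mp hm).2
          rw [hkK _ h1] at h7
          omega
        exact hmm (S.line_unique _ _ m m' hne ((mem_I k).mp hm.1).1 (hthrough m hm.1 hm.2)
          ((mem_I k).mp hm'.1).1 (hthrough m' hm'.1 hm'.2))
      have : l = l' := O.line_ext hlo hhi
      rw [this]
  rw [← h1] at h2
  exact_mod_cast h2

/-- the threshold function -/
noncomputable def kk (S : Planar P L Q) (R : ℕ) (a : P) : ℕ :=
  3 * (Fintype.card P - 1) / (4 * max (S.d a) R) + 1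

theorem kk_pos (R : ℕ) (a : P) : 1 ≤ kk S R a := Nat.le_add_left 1 _

theorem kk_upper (R : ℕ) (a : P) (N : ℝ) (hN : N = (Fintype.card P : ℝ) - 1)
    (hP : 1 ≤ Fintype.card P) : 4 * ((kk S R a : ℝ) - 1) * (S.d a : ℝ) ≤ 3 * N := by
  have h1 : 3 * (Fintype.card P - 1) / (4 * max (S.d a) R) * (4 * max (S.d a) R) ≤
      3 * (Fintype.card P - 1) := Nat.div_mul_le_self _ _
  have h2 : S.d a ≤ max (S.d a) R := le_max_left _ _
  have h3 : (((Fintype.card P - 1 : ℕ) : ℝ)) = N := by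
    rw [hN]; push_cast [hP]; ring
  have h4 : ((3 * (Fintype.card P - 1) / (4 * max (S.d a) R) : ℕ) : ℝ) *
      (4 * (max (S.d a) R : ℕ)) ≤ 3 * N := by
    rw [← h3]; exact_mod_cast h1
  have h5 : (S.d a : ℝ) ≤ (max (S.d a) R : ℕ) := by exact_mod_cast h2
  unfold kk
  push_cast at h4 h5 ⊢
  have h6 : (0:ℝ) ≤ ((3 * (Fintype.card P - 1) / (4 * max (S.d a) R) : ℕ) : ℝ) := by positivity
  nlinarith

theorem kk_lower (R : ℕ) (hR : 1 ≤ R) (a : P) (N : ℝ) (hN : N = (Fintype.card P : ℝ) - 1)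
    (hP : 1 ≤ Fintype.card P) : 3 * N < 4 * (kk S R a : ℝ) * (max (S.d a) R : ℕ) := by
  have h0 : 0 < 4 * max (S.d a) R := by
    have : 1 ≤ max (S.d a) R := hR.trans (le_max_right _ _)
    omega
  have h1 : 3 * (Fintype.card P - 1) < (3 * (Fintype.card P - 1) / (4 * max (S.d a) R) + 1) *
      (4 * max (S.d a) R) := by
    have := Nat.lt_div_mul_add (a := 3 * (Fintype.card P - 1)) h0
    linarith
  have h3 : (((Fintype.card P - 1 : ℕ) : ℝ)) = N := by
    rw [hN]; push_cast [hP]; ring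
  have h4 : 3 * N < ((3 * (Fintype.card P - 1) / (4 * max (S.d a) R) + 1 : ℕ) : ℝ) *
      (4 * (max (S.d a) R : ℕ)) := by
    rw [← h3]; exact_mod_cast h1
  unfold kk
  linarith

open Classical in
/-- the bound for the good lines with a high lowest point -/
theorem Ord.fl_high (R : ℕ) (hR : 1 ≤ R) (N : ℝ) (hN : N = (Fintype.card P : ℝ) - 1)
    (hNpos : 0 < N) (hP : 1 ≤ Fintype.card P) (l : L) (hl : R < S.d (O.lo l)) :
    (O.fl (kk S R) l : ℝ) ≤ 4 * ((S.d (O.lo l) : ℝ) * (S.d (O.hi l) : ℝ)) / (3 * N) := by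
  have h1 := S.planes_through_line (O.hi l) l (O.hi_inc l) (kk S R (O.lo l))
  have h2 := kk_lower (S := S) R hR (O.lo l) N hN hP
  have h3 : max (S.d (O.lo l)) R = S.d (O.lo l) := max_eq_left hl.le
  rw [h3] at h2
  change (O.fl (kk S R) l : ℝ) * (kk S R (O.lo l) : ℝ) ≤ _ at h1
  rw [le_div_iff₀ (by positivity)]
  have h4 : (0:ℝ) ≤ (O.fl (kk S R) l : ℝ) := by positivity
  have h5 : (0:ℝ) ≤ (S.d (O.lo l) : ℝ) := by positivity
  calc (O.fl (kk S R) l : ℝ) * (3 * N)
      ≤ (O.fl (kk S R) l : ℝ) * (4 * (kk S R (O.lo l) : ℝ) * (S.d (O.lo l) : ℝ)) :=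
        mul_le_mul_of_nonneg_left h2.le h4
    _ = 4 * (S.d (O.lo l) : ℝ) * ((O.fl (kk S R) l : ℝ) * (kk S R (O.lo l) : ℝ)) := by ring
    _ ≤ 4 * (S.d (O.lo l) : ℝ) * ((S.d (O.hi l) : ℝ) - 1) :=
        mul_le_mul_of_nonneg_left h1 (by positivity)
    _ ≤ _ := by nlinarith

open Classical in
/-- few planes through a line in which a low point has large degree -/
theorem few_planes (R : ℕ) (hR : 1 ≤ R) (N : ℝ) (hN : N = (Fintype.card P : ℝ) - 1)
    (hNpos : 0 < N) (hP : 1 ≤ Fintype.card P) (hR1 : R * (R + 1) ≤ 2 * Fintype.card L)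
    (l : L) (b a : P) (hb : S.inc b l) (hbR : S.d b ≤ R) (haR : S.d a ≤ R) :
    ((univ.filter (fun σ => S.sub l σ ∧ kk S R a + 1 ≤ S.D b σ)).card : ℝ) ≤
      8 * (Fintype.card L : ℝ) / (3 * N) := by
  have h1 := S.planes_through_line b l hb (kk S R a)
  have h2 := kk_lower (S := S) R hR a N hN hP
  rw [max_eq_right haR] at h2
  rw [le_div_iff₀ (by positivity)]
  set c : ℝ := ((univ.filter (fun σ => S.sub l σ ∧ kk S R a + 1 ≤ S.D b σ)).card : ℝ) with hc
  have h4 : (0:ℝ) ≤ c := by positivity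
  have h5 : (S.d b : ℝ) ≤ R := by exact_mod_cast hbR
  have h6 : (R : ℝ) * ((R : ℝ) + 1) ≤ 2 * (Fintype.card L : ℝ) := by exact_mod_cast hR1
  have h7 : (0:ℝ) ≤ R := by positivity
  calc c * (3 * N) ≤ c * (4 * (kk S R a : ℝ) * (R : ℝ)) := mul_le_mul_of_nonneg_left h2.le h4
    _ = 4 * R * (c * (kk S R a : ℝ)) := by ring
    _ ≤ 4 * R * ((S.d b : ℝ) - 1) := mul_le_mul_of_nonneg_left h1 (by positivity)
    _ ≤ 4 * R * R := by nlinarith
    _ ≤ _ := by nlinarith

open Classical in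
theorem Ord.fl_low (R : ℕ) (hR : 1 ≤ R) (N : ℝ) (hN : N = (Fintype.card P : ℝ) - 1)
    (hNpos : 0 < N) (hP : 1 ≤ Fintype.card P) (hR1 : R * (R + 1) ≤ 2 * Fintype.card L)
    (l : L) (hl : S.d (O.hi l) ≤ R) :
    (O.fl (kk S R) l : ℝ) ≤ 8 * (Fintype.card L : ℝ) / (3 * N) :=
  few_planes R hR N hN hNpos hP hR1 l (O.hi l) (O.lo l) (O.hi_inc l) hl
    ((O.d_lo_le l).trans hl)

/-- sum over the lines with a high lowest point -/
theorem Ord.sum_high (R : ℕ) (hR1 : R * (R + 1) ≤ 2 * Fintype.card L)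
    (hR2 : 2 * Fintype.card L < (R + 1) * (R + 2)) :
    ∑ l with R < S.d (O.lo l), ((S.d (O.lo l) : ℝ) * (S.d (O.hi l) : ℝ)) ≤
      2 * (Fintype.card L : ℝ) ^ 2 := by
  classical
  have hsum := S.sum_Hi hR1 hR2
  have hnn : 0 ≤ ∑ p ∈ S.Hi R, (S.d p : ℝ) := Finset.sum_nonneg fun _ _ => by positivity
  -- two injections into ordered pairs
  set B : Finset L := univ.filter (fun l => R < S.d (O.lo l)) with hB
  have key : 2 * ∑ l ∈ B, ((S.d (O.lo l) : ℝ) * (S.d (O.hi l) : ℝ)) ≤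
      ∑ x ∈ S.Hi R ×ˢ S.Hi R, (S.d x.1 : ℝ) * (S.d x.2 : ℝ) := by
    have e1 : 2 * ∑ l ∈ B, ((S.d (O.lo l) : ℝ) * (S.d (O.hi l) : ℝ)) =
        ∑ y ∈ B ×ˢ (univ : Finset Bool), ((S.d (O.lo y.1) : ℝ) * (S.d (O.hi y.1) : ℝ)) := by
      rw [Finset.sum_product, Finset.mul_sum]
      refine Finset.sum_congr rfl fun l _ => ?_
      simp
    set f : L × Bool → P × P := fun y => if y.2 then (O.lo y.1, O.hi y.1) else
      (O.hi y.1, O.lo y.1) with hf
    have hinj : Set.InjOn f ((B ×ˢ (univ : Finset Bool) : Finset (L × Bool)) : Set (L × Bool)) := by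
      rintro ⟨l, b⟩ _ ⟨l', b'⟩ _ heq
      simp only [hf] at heq
      cases b <;> cases b'
      · simp only [Bool.false_eq_true, ↓reduceIte, Prod.mk.injEq] at heq
        rw [O.line_ext heq.2 heq.1]
      · simp only [Bool.false_eq_true, ↓reduceIte, Prod.mk.injEq] at heq
        have h1 := O.key_lt l
        have h2 := O.key_lt l'
        rw [heq.1, heq.2] at h1
        omega
      · simp only [Bool.false_eq_true, ↓reduceIte, Prod.mk.injEq] at heq
        have h1 := O.key_lt l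
        have h2 := O.key_lt l'
        rw [heq.1, heq.2] at h1
        omega
      · simp only [↓reduceIte, Prod.mk.injEq] at heq
        rw [O.line_ext heq.1 heq.2]
    have e2 : ∑ y ∈ B ×ˢ (univ : Finset Bool), ((S.d (O.lo y.1) : ℝ) * (S.d (O.hi y.1) : ℝ)) =
        ∑ x ∈ (B ×ˢ (univ : Finset Bool)).image f, (S.d x.1 : ℝ) * (S.d x.2 : ℝ) := by
      rw [Finset.sum_image hinj]
      refine Finset.sum_congr rfl fun y _ => ?_
      rcases y with ⟨l, b⟩
      cases b
      · simp only [hf, Bool.false_eq_true, ↓reduceIte]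
        exact mul_comm _ _
      · simp [hf]
    rw [e1, e2]
    refine Finset.sum_le_sum_of_subset_of_nonneg ?_ fun _ _ _ => by positivity
    intro x hx
    rw [Finset.mem_image] at hx
    obtain ⟨⟨l, b⟩, hy, rfl⟩ := hx
    rw [Finset.mem_product, hB, Finset.mem_filter] at hy
    have h1 : R < S.d (O.lo l) := hy.1.2
    have h2 : R < S.d (O.hi l) := lt_of_lt_of_le h1 (O.d_lo_le l)
    rw [Finset.mem_product, S.mem_Hi, S.mem_Hi]
    cases b
    · simp [hf, h1, h2]
    · simp [hf, h1, h2]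
  rw [Finset.sum_product] at key
  have e3 : ∑ x ∈ S.Hi R, ∑ y ∈ S.Hi R, (S.d (x, y).1 : ℝ) * (S.d (x, y).2 : ℝ) =
      (∑ p ∈ S.Hi R, (S.d p : ℝ)) ^ 2 := by
    rw [sq, Finset.sum_mul_sum]
  rw [e3] at key
  have : (∑ p ∈ S.Hi R, (S.d p : ℝ)) ^ 2 ≤ (2 * (Fintype.card L : ℝ)) ^ 2 :=
    pow_le_pow_left₀ hnn hsum 2
  nlinarith

include O in
open Classical in
/-- the main estimate -/
theorem Ord.main_bound (R : ℕ) (hR : 1 ≤ R) (N : ℝ) (hN : N = (Fintype.card P : ℝ) - 1)
    (hNpos : 0 < N) (hP : 1 ≤ Fintype.card P) (hR1 : R * (R + 1) ≤ 2 * Fintype.card L)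
    (hR2 : 2 * Fintype.card L < (R + 1) * (R + 2)) (K : ℕ)
    (hkK : ∀ a, S.d a ≤ R → kk S R a = K) :
    (Fintype.card Q : ℝ) ≤ 16 * (Fintype.card L : ℝ) ^ 2 / N
      + 3 / 2 * ((S.ZH R K).card : ℝ) := by
  set t : ℝ := (Fintype.card L : ℝ) with ht
  have ht0 : 0 ≤ t := by positivity
  have hQ := O.card_Q (kk S R)
  have hTB := O.card_TB (kk S R) R K hkK
  have hcl := O.sum_cl (kk S R) R K hkK
  -- sum of the type S bounds
  have hTS : 2 * ∑ a, ((O.TS (kk S R) a).card : ℝ) ≤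
      16 * t ^ 2 / N + ∑ l : L, if S.sz l ≤ kk S R (O.lo l) then (O.dl (kk S R) l : ℝ) else 0 := by
    have h1 : ∀ a, 2 * ((O.TS (kk S R) a).card : ℝ) ≤
        16 * ((O.A (kk S R) a).card : ℝ) * t / N
        + ∑ l ∈ O.A (kk S R) a, (O.dl (kk S R) l : ℝ) := fun a =>
      O.typeS (kk S R) hR1 hR2 a N hN hNpos (kk_pos R a) (kk_upper R a N hN hP)
    have h2 : ∑ a, ∑ l ∈ O.A (kk S R) a, (O.dl (kk S R) l : ℝ) =
        ∑ l : L, if S.sz l ≤ kk S R (O.lo l) then (O.dl (kk S R) l : ℝ) else 0 := by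
      have h3 : ∀ a, ∑ l ∈ O.A (kk S R) a, (O.dl (kk S R) l : ℝ) =
          ∑ l : L, if O.lo l = a then
            (if S.sz l ≤ kk S R (O.lo l) then (O.dl (kk S R) l : ℝ) else 0) else 0 := by
        intro a
        unfold Ord.A
        rw [Finset.sum_filter]
        refine Finset.sum_congr rfl fun l _ => ?_
        by_cases h : O.lo l = a
        · subst h; simp
        · simp [h]
      rw [Finset.sum_congr rfl fun a _ => h3 a, Finset.sum_comm]
      refine Finset.sum_congr rfl fun l _ => ?_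
      simp
    have h4 : ∑ a, ((O.A (kk S R) a).card : ℝ) ≤ t := by
      have h5 : ∑ a, ((O.A (kk S R) a).card : ℝ) ≤
          ∑ a, ((univ.filter (fun l => O.lo l = a)).card : ℝ) := by
        refine Finset.sum_le_sum fun a _ => ?_
        have : (O.A (kk S R) a).card ≤ (univ.filter (fun l => O.lo l = a)).card := by
          refine Finset.card_le_card fun l hl => ?_
          have := (O.mem_A (kk S R)).mp hl
          simp [this.1]
        exact_mod_cast this
      have h6 : ∑ a, (univ.filter (fun l => O.lo l = a)).card = Fintype.card L := by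
        rw [← Finset.card_univ]
        exact (Finset.card_eq_sum_card_fiberwise (f := O.lo) (s := (univ : Finset L))
          (t := (univ : Finset P)) (fun _ _ => Finset.mem_coe.mpr (Finset.mem_univ _))).symm
      have h7 : ∑ a, ((univ.filter (fun l => O.lo l = a)).card : ℝ) = t := by
        rw [ht, ← h6]; push_cast; rfl
      linarith
    rw [← h2, Finset.mul_sum]
    calc _ ≤ ∑ a, (16 * ((O.A (kk S R) a).card : ℝ) * t / N
          + ∑ l ∈ O.A (kk S R) a, (O.dl (kk S R) l : ℝ)) := Finset.sum_le_sum fun a _ => h1 a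
      _ = 16 * (∑ a, ((O.A (kk S R) a).card : ℝ)) * t / N
          + ∑ a, ∑ l ∈ O.A (kk S R) a, (O.dl (kk S R) l : ℝ) := by
          rw [Finset.sum_add_distrib]
          congr 1
          rw [Finset.mul_sum, Finset.sum_mul, Finset.sum_div]
      _ ≤ 16 * t * t / N + _ := by
          gcongr
      _ = _ := by ring_nf
  -- bound for the good lines
  set u : ℝ := 8 * t / (3 * N) with hu
  have hu0 : 0 ≤ u := by positivity
  set hh : L → ℝ := fun l => if R < S.d (O.lo l) then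
    4 * ((S.d (O.lo l) : ℝ) * (S.d (O.hi l) : ℝ)) / (3 * N) else 0 with hhh
  have hhsum : ∑ l : L, hh l ≤ 8 * t ^ 2 / (3 * N) := by
    have h1 := O.sum_high R hR1 hR2
    rw [Finset.sum_filter] at h1
    have h2 : ∑ l : L, hh l = 4 / (3 * N) * ∑ l : L, (if R < S.d (O.lo l) then
        ((S.d (O.lo l) : ℝ) * (S.d (O.hi l) : ℝ)) else 0) := by
      rw [Finset.mul_sum]
      refine Finset.sum_congr rfl fun l _ => ?_
      simp only [hhh]
      split_ifs
      · ring
      · ring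
    rw [h2]
    calc _ ≤ 4 / (3 * N) * (2 * t ^ 2) := mul_le_mul_of_nonneg_left h1 (by positivity)
      _ = _ := by ring
  have hcard : ∑ _l : L, u = t * u := by
    rw [Finset.sum_const, Finset.card_univ, nsmul_eq_mul]
  have hgood : ∀ l : L, (R < S.d (O.lo l) ∨ S.d (O.hi l) ≤ R) →
      (O.fl (kk S R) l : ℝ) ≤ hh l + u := by
    intro l hl
    by_cases h : R < S.d (O.lo l)
    · have := O.fl_high R hR N hN hNpos hP l h
      simp only [hhh, h, if_true]
      linarith
    · have := O.fl_low R hR N hN hNpos hP hR1 l (hl.resolve_left h)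
      simp only [hhh, h, if_false]
      linarith
  have hfl : ∑ l ∈ O.Gd R, (O.fl (kk S R) l : ℝ) ≤ 8 * t ^ 2 / (3 * N) + t * u := by
    unfold Ord.Gd
    rw [Finset.sum_filter]
    calc _ ≤ ∑ l : L, (hh l + u) := by
          refine Finset.sum_le_sum fun l _ => ?_
          have h0 : 0 ≤ hh l := by
            simp only [hhh]
            split_ifs <;> positivity
          split_ifs with h
          · exact hgood l h
          · linarith
      _ ≤ _ := by rw [Finset.sum_add_distrib, hcard]; linarith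
  have hdl : (∑ l : L, if S.sz l ≤ kk S R (O.lo l) then (O.dl (kk S R) l : ℝ) else 0) ≤
      8 * t ^ 2 / (3 * N) + t * u + ((S.ZH R K).card : ℝ) := by
    rw [Finset.sum_filter] at hcl
    calc _ ≤ ∑ l : L, ((hh l + u) + (if ¬ (R < S.d (O.lo l) ∨ S.d (O.hi l) ≤ R) then
            (O.cl (kk S R) K l : ℝ) else 0)) := by
          refine Finset.sum_le_sum fun l _ => ?_
          have h0 : 0 ≤ hh l := by
            simp only [hhh]
            split_ifs <;> positivity
          have h00 : (0:ℝ) ≤ (if ¬ (R < S.d (O.lo l) ∨ S.d (O.hi l) ≤ R) then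
            (O.cl (kk S R) K l : ℝ) else 0) := by split_ifs <;> positivity
          by_cases hs : S.sz l ≤ kk S R (O.lo l)
          · rw [if_pos hs]
            by_cases h : R < S.d (O.lo l) ∨ S.d (O.hi l) ≤ R
            · have h1 : (O.dl (kk S R) l : ℝ) ≤ (O.fl (kk S R) l : ℝ) := by
                exact_mod_cast O.dl_le_fl (kk S R) l
              have h2 := hgood l h
              linarith
            · rw [if_pos h]
              have h1 : (O.dl (kk S R) l : ℝ) ≤ ((univ.filter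
                  (fun σ => S.sub l σ ∧ K + 1 ≤ S.D (O.lo l) σ)).card : ℝ) +
                  (O.cl (kk S R) K l : ℝ) := by
                exact_mod_cast O.dl_le_bad (kk S R) K l
              have h3 : S.d (O.lo l) ≤ R := by
                by_contra hcon
                exact h (Or.inl (not_le.mp hcon))
              have h2 := few_planes (S := S) R hR N hN hNpos hP hR1 l (O.lo l) (O.lo l)
                (O.lo_inc l) h3 h3
              rw [hkK _ h3] at h2
              linarith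
          · rw [if_neg hs]
            linarith
      _ ≤ _ := by
          rw [Finset.sum_add_distrib, Finset.sum_add_distrib, hcard]
          linarith
  have htu : t * u = 8 * t ^ 2 / (3 * N) := by rw [hu]; ring
  rw [htu] at hfl hdl
  have e1 : 8 * t ^ 2 / (3 * N) = 8 / 3 * (t ^ 2 / N) := by
    rw [div_mul_div_comm]
  have e2 : 16 * t ^ 2 / N = 16 * (t ^ 2 / N) := by ring
  rw [e1] at hfl hdl
  rw [e2] at hTS ⊢
  linarith

/-- Mason's inequality up to a constant, for planar spaces -/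
theorem mason_weak (S : Planar P L Q) :
    (Fintype.card P : ℝ) * (Fintype.card Q : ℝ) ≤ 24 * (Fintype.card L : ℝ) ^ 2 := by
  classical
  rcases isEmpty_or_nonempty Q with hQ | ⟨⟨σ⟩⟩
  · rw [Fintype.card_eq_zero (α := Q)]
    push_cast
    nlinarith [sq_nonneg (Fintype.card L : ℝ)]
  obtain ⟨x, y, z, hx, hy, hz, hxy, hcol⟩ := S.plane_three σ
  obtain ⟨l, hlx, hly⟩ := S.line_exists x y hxy
  have hL : 1 ≤ Fintype.card L := Fintype.card_pos_iff.mpr ⟨l⟩
  have hP : 2 ≤ Fintype.card P := by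
    have := Fintype.one_lt_card_iff.mpr ⟨x, y, hxy⟩
    omega
  obtain ⟨R, hR1, hR2⟩ := exists_R (Fintype.card L)
  have hR : 1 ≤ R := by
    by_contra h
    have : R = 0 := by omega
    subst this
    omega
  set n : ℝ := (Fintype.card P : ℝ) with hn
  set t : ℝ := (Fintype.card L : ℝ) with ht
  set q : ℝ := (Fintype.card Q : ℝ) with hq
  have hn2 : 2 ≤ n := by rw [hn]; exact_mod_cast hP
  have ht1 : 1 ≤ t := by rw [ht]; exact_mod_cast hL
  have hR1' : (R : ℝ) * ((R : ℝ) + 1) ≤ 2 * t := by rw [ht]; exact_mod_cast hR1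
  have hRr : (1:ℝ) ≤ R := by exact_mod_cast hR
  have hq0 : 0 ≤ q := by positivity
  have htriv : 3 * q ≤ t * (n - 2) := S.planes_le
  have hsq : 2 * q ≤ t ^ 2 := by rw [hq, ht]; exact_mod_cast S.planes_le_sq
  set N : ℝ := n - 1 with hN
  have hNpos : 0 < N := by linarith
  by_cases hbig : 6 * (R : ℝ) ≤ N
  · by_cases hn48 : n ≤ 48
    · nlinarith
    push Not at hn48
    obtain ⟨O⟩ := S.exists_ord
    set K : ℕ := 3 * (Fintype.card P - 1) / (4 * R) + 1 with hK
    have hkK : ∀ a, S.d a ≤ R → kk S R a = K := by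
      intro a ha
      unfold kk
      rw [max_eq_right ha]
    have hmain := O.main_bound R hR N hN hNpos (by omega) hR1 hR2 K hkK
    have hZ := S.card_ZH (R := R) (K := K) hR1 hR2
    set Z : ℝ := ((S.ZH R K).card : ℝ) with hZdef
    have hZ0 : 0 ≤ Z := by positivity
    -- lower bound for K
    have hKlow : 3 * N < 4 * (K : ℝ) * R := by
      have h1 : 3 * (Fintype.card P - 1) < K * (4 * R) := by
        have := Nat.lt_div_mul_add (a := 3 * (Fintype.card P - 1)) (b := 4 * R) (by omega)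
        rw [hK]
        linarith
      have h3 : (((Fintype.card P - 1 : ℕ) : ℝ)) = N := by
        rw [hN, hn]; push_cast [show 1 ≤ Fintype.card P by omega]; ring
      have h4 : 3 * N < (K : ℝ) * (4 * (R : ℝ)) := by
        rw [← h3]; exact_mod_cast h1
      linarith
    have hK0 : (0:ℝ) ≤ (K : ℝ) := by positivity
    have h9 : 9 * N ^ 2 ≤ 16 * ((K : ℝ) * R) ^ 2 := by
      have : (3 * N) ^ 2 ≤ (4 * (K : ℝ) * R) ^ 2 := pow_le_pow_left₀ (by linarith) hKlow.le 2
      nlinarith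
    have hZ2 : Z * (9 * N ^ 2) ≤ 64 / 3 * (N * t) * (R : ℝ) ^ 2 := by
      have h10 : Z * (K : ℝ) ^ 2 ≤ 4 / 3 * (N * t) := by
        have h11 : Z * (K : ℝ) ^ 2 ≤ Z * (((K : ℝ) + 1) * K) := by
          apply mul_le_mul_of_nonneg_left _ hZ0
          nlinarith
        have h12 : 2 * t * R ≤ 1 / 3 * (N * t) := by nlinarith
        have h13 : (n - 1) * t = N * t := by rw [hN]
        linarith
      calc Z * (9 * N ^ 2) ≤ Z * (16 * ((K : ℝ) * R) ^ 2) := mul_le_mul_of_nonneg_left h9 hZ0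
        _ = 16 * (R : ℝ) ^ 2 * (Z * (K : ℝ) ^ 2) := by ring
        _ ≤ 16 * (R : ℝ) ^ 2 * (4 / 3 * (N * t)) := mul_le_mul_of_nonneg_left h10 (by positivity)
        _ = _ := by ring
    have hZ3 : Z * (9 * N ^ 2) ≤ 128 / 3 * (N * t ^ 2) := by
      have h14 : (R : ℝ) ^ 2 ≤ 2 * t := by nlinarith
      have h15 : 64 / 3 * (N * t) * (R : ℝ) ^ 2 ≤ 64 / 3 * (N * t) * (2 * t) :=
        mul_le_mul_of_nonneg_left h14 (by positivity)
      linarith
    have hZ4 : Z ≤ 128 / 27 * (t ^ 2 / N) := by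
      rw [← mul_div_assoc, le_div_iff₀ hNpos]
      have h16 : (Z * N) * (9 * N) ≤ (128 / 27 * t ^ 2) * (9 * N) := by nlinarith
      exact le_of_mul_le_mul_right h16 (by positivity)
    have e2 : 16 * t ^ 2 / N = 16 * (t ^ 2 / N) := by ring
    rw [e2] at hmain
    have hq2 : q ≤ 208 / 9 * (t ^ 2 / N) := by linarith
    have hq3 : q * N ≤ 208 / 9 * t ^ 2 := by
      rw [← mul_div_assoc, le_div_iff₀ hNpos] at hq2
      exact hq2
    -- q * n = q * N * (n / N)
    have h17 : n ≤ 27 / 26 * N := by rw [hN]; linarith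
    calc n * q ≤ 27 / 26 * N * q := mul_le_mul_of_nonneg_right h17 hq0
      _ = 27 / 26 * (q * N) := by ring
      _ ≤ 27 / 26 * (208 / 9 * t ^ 2) := mul_le_mul_of_nonneg_left hq3 (by norm_num)
      _ = 24 * t ^ 2 := by ring
  · push Not at hbig
    have h1 : N ^ 2 ≤ 72 * t := by
      have : N ^ 2 ≤ (6 * (R : ℝ)) ^ 2 := pow_le_pow_left₀ hNpos.le hbig.le 2
      nlinarith
    have h2 : n * (n - 2) ≤ N ^ 2 := by rw [hN]; nlinarith
    have h3 : n * (3 * q) ≤ n * (t * (n - 2)) := mul_le_mul_of_nonneg_left htriv (by linarith)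
    have h4 : t * (n * (n - 2)) ≤ t * (72 * t) :=
      mul_le_mul_of_nonneg_left (h2.trans h1) (by linarith)
    nlinarith

end Planar
end Pool.Agent.H27
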